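import Mathlib

set_option autoImplicit false

open List

namespace Pool.Agent.KS6_22.ED.Base

/-- A language over the countable letter supply `ℕ` that uses only finitely many letters. -/
def OverFinite (L : Language ℕ) : Prop := ∃ X : Finset ℕ, ∀ w ∈ L, ∀ c ∈ w, c ∈ X

/-- Image of `L` under the rational transduction `u ↦ g (h⁻¹ (u) ∩ R)` (Nivat's form);
`h` and `g` are the morphisms `Z* → ℕ*` given by their values on letters. -/
def transduce {Z : Type} (h g : Z → List ℕ) (R : Language Z) (L : Language ℕ) : Language ℕ :=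
  {w | ∃ z ∈ R, z.flatMap h ∈ L ∧ z.flatMap g = w}

/-- A rational cone. -/
def IsRationalCone (F : Set (Language ℕ)) : Prop :=
  (∀ L ∈ F, OverFinite L) ∧
  ∀ L ∈ F, ∀ (Z : Type) [Finite Z] (h g : Z → List ℕ) (R : Language Z),
    R.IsRegular → transduce h g R L ∈ F

/-- A principal rational cone: the least rational cone containing some language `L`. -/
def IsPrincipalCone (F : Set (Language ℕ)) : Prop :=
  IsRationalCone F ∧ ∃ L ∈ F, ∀ F' : Set (Language ℕ), IsRationalCone F' → L ∈ F' → F ⊆ F'

/-- Closure under product. -/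
def ProductClosed (F : Set (Language ℕ)) : Prop :=
  ∀ L₁ ∈ F, ∀ L₂ ∈ F, L₁ * L₂ ∈ F

/-- Translatable: `⟨L⟩ = {aⁿ f bⁿ : n ≥ 1, f ∈ L}` for letters `a ≠ b` not occurring in `L`. -/
def Translatable (F : Set (Language ℕ)) : Prop :=
  ∀ L ∈ F, ∀ a b : ℕ, a ≠ b → (∀ w ∈ L, a ∉ w ∧ b ∉ w) →
    ({w | ∃ n, 1 ≤ n ∧ ∃ f ∈ L, w = replicate n a ++ f ++ replicate n b} : Language ℕ) ∈ F

/-! ### The generator -/

/-- numbers of the `3`s and of the `4`s in the longest prefix over `{3, 4}` -/
def lead : List ℕ → ℕ × ℕ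
  | [] => 0
  | c :: v => if c = 3 then lead v + (1, 0) else if c = 4 then lead v + (0, 1) else 0

/-- the multiset of the names of the blocks of index `i` -/
def net : List ℕ → ℕ → Multiset (ℕ × ℕ)
  | [] => fun _ => 0
  | c :: v => fun i => net v i +
      (if (lead v).1 = i then (if c = 2 ∨ c = 3 ∨ c = 4 then 0 else {(c, (lead v).2)}) else 0)

/-- the generator -/
def G (N : Set (Multiset (ℕ × ℕ))) : Language ℕ := {u | (∀ c ∈ u, c < 6) ∧ ∀ i, net u i ∈ N}

/-- the conditions on the set of multisets -/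
structure Good (N : Set (Multiset (ℕ × ℕ))) : Prop where
  zero : 0 ∈ N
  bal : ∀ n m : ℕ, Multiset.replicate m (1, 0) + Multiset.replicate n (0, 0) ∈ N ↔ n = m

@[simp] lemma lead_nil : lead [] = 0 := rfl
lemma lead_cons (c : ℕ) (v : List ℕ) : lead (c :: v) =
    if c = 3 then lead v + (1, 0) else if c = 4 then lead v + (0, 1) else 0 := rfl
@[simp] lemma net_nil (i : ℕ) : net [] i = 0 := rfl
lemma net_cons (c : ℕ) (v : List ℕ) (i : ℕ) : net (c :: v) i = net v i +
      (if (lead v).1 = i then (if c = 2 ∨ c = 3 ∨ c = 4 then 0 else {(c, (lead v).2)}) else 0) :=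
  rfl

lemma lead_append {u v : List ℕ} (hv : lead v = 0) : lead (u ++ v) = lead u := by
  induction u with
  | nil => simpa using hv
  | cons c u ih => simp [lead_cons, ih]

lemma net_append {u v : List ℕ} (hv : lead v = 0) (i : ℕ) :
    net (u ++ v) i = net u i + net v i := by
  induction u with
  | nil => simp
  | cons c u ih =>
    rw [List.cons_append, net_cons, net_cons, ih, lead_append hv]; abel

lemma lead_append_zero {u v : List ℕ} (hu : lead u = 0) (hv : lead v = 0) :
    lead (u ++ v) = 0 := by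
  rw [lead_append hv, hu]

/-- `net` and `lead` of a word depend only on those of a suffix -/
lemma congr_suffix {V V' : List ℕ} (h1 : lead V = lead V') (h2 : ∀ i, net V i = net V' i)
    (u : List ℕ) : lead (u ++ V) = lead (u ++ V') ∧ ∀ i, net (u ++ V) i = net (u ++ V') i := by
  induction u with
  | nil => exact ⟨h1, h2⟩
  | cons c u ih =>
    refine ⟨?_, fun i => ?_⟩
    · rw [List.cons_append, List.cons_append, lead_cons, lead_cons, ih.1]
    · rw [List.cons_append, List.cons_append, net_cons, net_cons, ih.1, ih.2]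

/-- the leading part over `{3, 4}` -/
lemma pure_append {p : List ℕ} (hp : ∀ c ∈ p, c = 3 ∨ c = 4) (V : List ℕ) :
    lead (p ++ V) = (p.count 3, p.count 4) + lead V ∧ ∀ i, net (p ++ V) i = net V i := by
  induction p with
  | nil => exact ⟨by simp, fun i => rfl⟩
  | cons c p ih =>
    have ih := ih fun d hd => hp d (by simp [hd])
    rcases hp c (by simp) with rfl | rfl
    · refine ⟨?_, fun i => ?_⟩
      · rw [List.cons_append, lead_cons, if_pos rfl, ih.1]
        ext <;> simp <;> omega
      · rw [List.cons_append, net_cons, ih.2]; simp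
    · refine ⟨?_, fun i => ?_⟩
      · rw [List.cons_append, lead_cons, if_neg (by omega), if_pos rfl, ih.1]
        ext <;> simp <;> omega
      · rw [List.cons_append, net_cons, ih.2]; simp

lemma net_swap {X P Q P' Q' : List ℕ} (hP : lead P = 0) (hQ : lead Q = 0) (hP' : lead P' = 0)
    (hQ' : lead Q' = 0) (i : ℕ) :
    net (X ++ (P ++ (Q ++ (P' ++ Q')))) i = net (X ++ (P' ++ (Q ++ (P ++ Q')))) i := by
  have h1 : lead (P' ++ Q') = 0 := lead_append_zero hP' hQ'
  have h2 : lead (Q ++ (P' ++ Q')) = 0 := lead_append_zero hQ h1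
  have h3 : lead (P ++ (Q ++ (P' ++ Q'))) = 0 := lead_append_zero hP h2
  have h1' : lead (P ++ Q') = 0 := lead_append_zero hP hQ'
  have h2' : lead (Q ++ (P ++ Q')) = 0 := lead_append_zero hQ h1'
  have h3' : lead (P' ++ (Q ++ (P ++ Q'))) = 0 := lead_append_zero hP' h2'
  rw [net_append h3, net_append h2, net_append h1, net_append hQ',
    net_append h3', net_append h2', net_append h1', net_append hQ']
  abel

/-! ### recoding block indices `i ↦ s * i + r` -/

def recode (s r : ℕ) (c : ℕ) : List ℕ :=
  if c = 2 ∨ c = 4 then [c] else if c = 3 then replicate s 3 else c :: replicate r 3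

lemma repl_append (n : ℕ) (v : List ℕ) : lead (replicate n 3 ++ v) = (n, 0) + lead v ∧
    ∀ i, net (replicate n 3 ++ v) i = net v i := by
  have h := pure_append (p := replicate n 3) (fun c hc => Or.inl (List.eq_of_mem_replicate hc)) v
  rw [List.count_replicate_self, List.count_replicate] at h
  simpa using h

lemma lead_recode (s r : ℕ) (u : List ℕ) :
    lead (u.flatMap (recode s r)) = (s * (lead u).1, (lead u).2) := by
  induction u with
  | nil => simp; rfl
  | cons c u ih =>
    rw [List.flatMap_cons, lead_cons]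
    by_cases h2 : c = 2
    · subst h2; simp [recode, lead_cons]; rfl
    by_cases h4 : c = 4
    · subst h4
      have : recode s r 4 = [4] := by simp [recode]
      rw [this, List.singleton_append, lead_cons, ih]
      simp
    by_cases h3 : c = 3
    · subst h3
      have : recode s r 3 = replicate s 3 := by simp [recode]
      rw [this, (repl_append _ _).1, ih]
      ext
      · simp; ring
      · simp
    · have : recode s r c = c :: replicate r 3 := by simp [recode, h2, h3, h4]
      rw [this, List.cons_append, lead_cons]; simp [h3, h4]; rfl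

lemma net_recode {s r : ℕ} (hs : 1 ≤ s) (u : List ℕ) (i : ℕ) :
    net (u.flatMap (recode s r)) (s * i + r) = net u i := by
  induction u with
  | nil => simp
  | cons c u ih =>
    rw [List.flatMap_cons]
    by_cases h2 : c = 2
    · subst h2
      have : recode s r 2 = [2] := by simp [recode]
      rw [this, List.singleton_append, net_cons, net_cons, ih]; simp
    by_cases h4 : c = 4
    · subst h4
      have : recode s r 4 = [4] := by simp [recode]
      rw [this, List.singleton_append, net_cons, net_cons, ih]; simp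
    by_cases h3 : c = 3
    · subst h3
      have : recode s r 3 = replicate s 3 := by simp [recode]
      rw [this, (repl_append _ _).2, ih, net_cons]; simp
    · have : recode s r c = c :: replicate r 3 := by simp [recode, h2, h3, h4]
      rw [this, List.cons_append, net_cons, net_cons, (repl_append _ _).2, ih,
        (repl_append _ _).1, lead_recode]
      have : (r + s * (lead u).1 = s * i + r) ↔ ((lead u).1 = i) := by
        constructor
        · intro h
          have : s * (lead u).1 = s * i := by omega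
          exact Nat.eq_of_mul_eq_mul_left (by omega) this
        · rintro rfl; ring
      simp only [Prod.fst_add, Prod.snd_add, zero_add, this]

lemma net_recode_other {s r : ℕ} (u : List ℕ) (k : ℕ) (hk : ∀ i, k ≠ s * i + r) :
    net (u.flatMap (recode s r)) k = 0 := by
  induction u with
  | nil => simp
  | cons c u ih =>
    rw [List.flatMap_cons]
    by_cases h2 : c = 2
    · subst h2
      have : recode s r 2 = [2] := by simp [recode]
      rw [this, List.singleton_append, net_cons, ih]; simp
    by_cases h4 : c = 4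
    · subst h4
      have : recode s r 4 = [4] := by simp [recode]
      rw [this, List.singleton_append, net_cons, ih]; simp
    by_cases h3 : c = 3
    · subst h3
      have : recode s r 3 = replicate s 3 := by simp [recode]
      rw [this, (repl_append _ _).2, ih]
    · have : recode s r c = c :: replicate r 3 := by simp [recode, h2, h3, h4]
      rw [this, List.cons_append, net_cons, (repl_append _ _).2, ih, (repl_append _ _).1,
        lead_recode]
      have : ¬ (r + s * (lead u).1 = k) := by
        intro h; exact hk (lead u).1 (by omega)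
      simp only [Prod.fst_add, this, if_false, add_zero]

lemma lt_recode {s r : ℕ} (u : List ℕ) :
    (∀ c ∈ u.flatMap (recode s r), c < 6) ↔ ∀ c ∈ u, c < 6 := by
  constructor
  · intro h c hc
    by_contra hlt
    have : recode s r c = c :: replicate r 3 := by
      have h2 : c ≠ 2 := by omega
      have h3 : c ≠ 3 := by omega
      have h4 : c ≠ 4 := by omega
      simp [recode, h2, h3, h4]
    exact hlt (h c (List.mem_flatMap.2 ⟨c, hc, by simp [this]⟩))
  · intro h d hd
    obtain ⟨c, hc, hd⟩ := List.mem_flatMap.1 hd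
    have hc4 := h c hc
    unfold recode at hd
    split_ifs at hd <;> simp at hd <;> omega


/-! ### Composition of transductions -/

lemma regular_of_finite_reach {Z Q : Type} (M : DFA Z Q) (h : (Set.range M.eval).Finite) :
    M.accepts.IsRegular := by
  apply Language.IsRegular.of_finite_range_leftQuotient
  rw [Language.leftQuotient_accepts]
  have : Set.range (M.acceptsFrom ∘ M.eval) = M.acceptsFrom '' Set.range M.eval := Set.range_comp _ _
  rw [this]
  exact h.image _

section comp
variable {Z₁ Z₂ : Type} {σ₁ σ₂ : Type} 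

/-- the fibre product automaton with a buffer -/
def compDFA (g₁ : Z₁ → List ℕ) (h₂ : Z₂ → List ℕ) (M₁ : DFA Z₁ σ₁) (M₂ : DFA Z₂ σ₂) (B : ℕ) :
    DFA (Z₁ ⊕ Z₂) (Option (σ₁ × σ₂ × List ℕ)) where
  step := fun q z => match q, z with
    | none, _ => none
    | some (q₁, q₂, b), Sum.inl z => if (b ++ g₁ z).length ≤ B then
        some (M₁.step q₁ z, q₂, b ++ g₁ z) else none
    | some (q₁, q₂, b), Sum.inr z => if h₂ z <+: b then
        some (q₁, M₂.step q₂ z, b.drop (h₂ z).length) else none
  start := some (M₁.start, M₂.start, [])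
  accept := {q | ∃ q₁ ∈ M₁.accept, ∃ q₂ ∈ M₂.accept, q = some (q₁, q₂, [])}

lemma compDFA_reach [Finite σ₁] [Finite σ₂] [Finite Z₁] (g₁ : Z₁ → List ℕ) (h₂ : Z₂ → List ℕ)
    (M₁ : DFA Z₁ σ₁) (M₂ : DFA Z₂ σ₂) (B : ℕ) :
    (Set.range (compDFA g₁ h₂ M₁ M₂ B).eval).Finite := by
  classical
  have := Fintype.ofFinite Z₁
  let S : Finset ℕ := Finset.univ.biUnion (fun z : Z₁ => (g₁ z).toFinset)
  let T : Set (List ℕ) := {l | l.length ≤ B ∧ ∀ c ∈ l, c ∈ S}
  have hT : T.Finite := by
    have h1 : (List.map (Subtype.val : S → ℕ) '' {l : List S | l.length ≤ B}).Finite :=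
      (List.finite_length_le S B).image _
    refine h1.subset ?_
    rintro l ⟨hl, hS⟩
    refine ⟨l.pmap (fun a ha => ⟨a, ha⟩) hS, by simpa using hl, ?_⟩
    rw [List.map_pmap]; simp
  let U : Set (Option (σ₁ × σ₂ × List ℕ)) :=
    insert none (some '' ((Set.univ : Set σ₁) ×ˢ ((Set.univ : Set σ₂) ×ˢ T)))
  have hU : U.Finite := by
    apply Set.Finite.insert
    exact ((Set.finite_univ).prod (Set.finite_univ.prod hT)).image _
  refine hU.subset ?_
  rintro _ ⟨x, rfl⟩
  induction x using List.reverseRecOn with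
  | nil =>
    right
    refine ⟨(M₁.start, M₂.start, []), ?_, rfl⟩
    simp [T]
  | append_singleton x a ih =>
    rw [DFA.eval_append_singleton]
    generalize (compDFA g₁ h₂ M₁ M₂ B).eval x = q at ih
    rcases ih with rfl | ⟨⟨q₁, q₂, b⟩, hb, rfl⟩
    · left; rfl
    · simp only [Set.mem_prod, Set.mem_univ, true_and] at hb
      rcases a with z | z
      · simp only [compDFA]
        split_ifs with hif
        · right
          refine ⟨_, ?_, rfl⟩
          simp only [Set.mem_prod, Set.mem_univ, true_and]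
          refine ⟨hif, ?_⟩
          intro c hc
          rcases List.mem_append.1 hc with hc | hc
          · exact hb.2 c hc
          · exact Finset.mem_biUnion.2 ⟨z, Finset.mem_univ _, by simpa using hc⟩
        · left; rfl
      · simp only [compDFA]
        split_ifs with hif
        · right
          refine ⟨_, ?_, rfl⟩
          simp only [Set.mem_prod, Set.mem_univ, true_and]
          refine ⟨?_, ?_⟩
          · have := hb.1
            simp only [List.length_drop]; omega
          · intro c hc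
            exact hb.2 c (List.mem_of_mem_drop hc)
        · left; rfl

/-- projections -/
def prL : List (Z₁ ⊕ Z₂) → List Z₁ := List.filterMap Sum.getLeft?
def prR : List (Z₁ ⊕ Z₂) → List Z₂ := List.filterMap Sum.getRight?

@[simp] lemma prL_nil : prL ([] : List (Z₁ ⊕ Z₂)) = [] := rfl
@[simp] lemma prR_nil : prR ([] : List (Z₁ ⊕ Z₂)) = [] := rfl
@[simp] lemma prL_inl (z : Z₁) (l : List (Z₁ ⊕ Z₂)) : prL (Sum.inl z :: l) = z :: prL l := by
  simp [prL]
@[simp] lemma prL_inr (z : Z₂) (l : List (Z₁ ⊕ Z₂)) : prL (Sum.inr z :: l) = prL l := rfl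
@[simp] lemma prR_inl (z : Z₁) (l : List (Z₁ ⊕ Z₂)) : prR (Sum.inl z :: l) = prR l := rfl
@[simp] lemma prR_inr (z : Z₂) (l : List (Z₁ ⊕ Z₂)) : prR (Sum.inr z :: l) = z :: prR l := by
  simp [prR]

/-- soundness -/
lemma compDFA_sound (g₁ : Z₁ → List ℕ) (h₂ : Z₂ → List ℕ) (M₁ : DFA Z₁ σ₁) (M₂ : DFA Z₂ σ₂)
    (B : ℕ) (z : List (Z₁ ⊕ Z₂)) : ∀ (q₁ : σ₁) (q₂ : σ₂) (b : List ℕ) (p₁ : σ₁) (p₂ : σ₂) (b' : List ℕ),
    (compDFA g₁ h₂ M₁ M₂ B).evalFrom (some (q₁, q₂, b)) z = some (p₁, p₂, b') →
    M₁.evalFrom q₁ (prL z) = p₁ ∧ M₂.evalFrom q₂ (prR z) = p₂ ∧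
      b ++ (prL z).flatMap g₁ = (prR z).flatMap h₂ ++ b' := by
  have hnone : ∀ z : List (Z₁ ⊕ Z₂), (compDFA g₁ h₂ M₁ M₂ B).evalFrom none z = none := by
    intro z
    induction z with
    | nil => rfl
    | cons a z ih => rw [DFA.evalFrom_cons]; exact ih
  induction z with
  | nil =>
    intro q₁ q₂ b p₁ p₂ b' h
    simp only [DFA.evalFrom_nil, Option.some.injEq, Prod.mk.injEq] at h
    obtain ⟨rfl, rfl, rfl⟩ := h
    simp
  | cons a z ih =>
    intro q₁ q₂ b p₁ p₂ b' h
    rw [DFA.evalFrom_cons] at h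
    rcases a with x | x
    · by_cases hif : (b ++ g₁ x).length ≤ B
      · have hst : (compDFA g₁ h₂ M₁ M₂ B).step (some (q₁, q₂, b)) (Sum.inl x) =
          some (M₁.step q₁ x, q₂, b ++ g₁ x) := by simp only [compDFA]; rw [if_pos hif]
        rw [hst] at h
        obtain ⟨h1, h2, h3⟩ := ih _ _ _ _ _ _ h
        refine ⟨by simpa using h1, by simpa using h2, ?_⟩
        simpa [List.append_assoc] using h3
      · have hst : (compDFA g₁ h₂ M₁ M₂ B).step (some (q₁, q₂, b)) (Sum.inl x) = none := by
          simp only [compDFA]; rw [if_neg hif]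
        rw [hst, hnone] at h; cases h
    · by_cases hif : h₂ x <+: b
      · have hst : (compDFA g₁ h₂ M₁ M₂ B).step (some (q₁, q₂, b)) (Sum.inr x) =
          some (q₁, M₂.step q₂ x, b.drop (h₂ x).length) := by simp only [compDFA]; rw [if_pos hif]
        rw [hst] at h
        obtain ⟨h1, h2, h3⟩ := ih _ _ _ _ _ _ h
        refine ⟨by simpa using h1, by simpa using h2, ?_⟩
        obtain ⟨t, rfl⟩ := hif
        simp only [List.drop_left] at h3
        simp [List.append_assoc, h3]
      · have hst : (compDFA g₁ h₂ M₁ M₂ B).step (some (q₁, q₂, b)) (Sum.inr x) = none := by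
          simp only [compDFA]; rw [if_neg hif]
        rw [hst, hnone] at h; cases h

/-- completeness: the schedule -/
lemma compDFA_complete (g₁ : Z₁ → List ℕ) (h₂ : Z₂ → List ℕ) (M₁ : DFA Z₁ σ₁) (M₂ : DFA Z₂ σ₂)
    (B₁ B₂ : ℕ) (hB₁ : ∀ z, (g₁ z).length ≤ B₁) (hB₂ : ∀ z, (h₂ z).length ≤ B₂) (n : ℕ) :
    ∀ (z₁ : List Z₁) (z₂ : List Z₂), z₁.length + z₂.length = n → ∀ (q₁ : σ₁) (q₂ : σ₂) (b : List ℕ),
    b ++ z₁.flatMap g₁ = z₂.flatMap h₂ → (z₁ ≠ [] → b.length ≤ B₁ + B₂) →
    ∃ z : List (Z₁ ⊕ Z₂), prL z = z₁ ∧ prR z = z₂ ∧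
      (compDFA g₁ h₂ M₁ M₂ (B₁ + B₂)).evalFrom (some (q₁, q₂, b)) z =
        some (M₁.evalFrom q₁ z₁, M₂.evalFrom q₂ z₂, []) := by
  induction n with
  | zero =>
    intro z₁ z₂ hn q₁ q₂ b hb _
    have h1 : z₁ = [] := List.length_eq_zero_iff.1 (by omega)
    have h2 : z₂ = [] := List.length_eq_zero_iff.1 (by omega)
    subst h1; subst h2
    have : b = [] := by simpa using hb
    subst this
    exact ⟨[], rfl, rfl, rfl⟩
  | succ n ih =>
    intro z₁ z₂ hn q₁ q₂ b hb hlen
    -- can we read from z₂?
    by_cases hz₂ : ∃ x z₂', z₂ = x :: z₂' ∧ (h₂ x).length ≤ b.length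
    · obtain ⟨x, z₂', rfl, hx⟩ := hz₂
      rw [List.flatMap_cons] at hb
      have hpre : h₂ x <+: b := by
        have : h₂ x <+: b ++ z₁.flatMap g₁ := ⟨_, hb.symm⟩
        exact (List.prefix_of_prefix_length_le this (List.prefix_append _ _) hx)
      obtain ⟨t, rfl⟩ := hpre
      have hb' : t ++ z₁.flatMap g₁ = z₂'.flatMap h₂ := by
        simpa [List.append_assoc] using hb
      obtain ⟨z, hz1, hz2, hz3⟩ := ih z₁ z₂' (by simp at hn; omega) q₁ (M₂.step q₂ x) t hb'
        (fun h => by have := hlen h; simp at this; omega)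
      refine ⟨Sum.inr x :: z, by simpa using hz1, by simpa using hz2, ?_⟩
      rw [DFA.evalFrom_cons]
      have hst : (compDFA g₁ h₂ M₁ M₂ (B₁ + B₂)).step (some (q₁, q₂, h₂ x ++ t)) (Sum.inr x) =
          some (q₁, M₂.step q₂ x, t) := by
        simp only [compDFA]; rw [if_pos (List.prefix_append _ _)]; simp
      rw [hst, hz3]; simp
    · -- read from z₁
      have hbB : b.length ≤ B₂ := by
        by_contra hcon
        rcases z₂ with _ | ⟨x, z₂'⟩
        · simp at hb
          rw [hb.1] at hcon; simp at hcon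
        · exact hz₂ ⟨x, z₂', rfl, by have := hB₂ x; omega⟩
      rcases z₁ with _ | ⟨x, z₁'⟩
      · exfalso
        rcases z₂ with _ | ⟨y, z₂'⟩
        · simp at hn
        · apply hz₂
          refine ⟨y, z₂', rfl, ?_⟩
          have := congrArg List.length hb
          simp at this; omega
      · rw [List.flatMap_cons] at hb
        have hgx := hB₁ x
        obtain ⟨z, hz1, hz2, hz3⟩ := ih z₁' z₂ (by simp at hn; omega) (M₁.step q₁ x) q₂ (b ++ g₁ x)
          (by rw [List.append_assoc]; exact hb) (fun _ => by simp; omega)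
        refine ⟨Sum.inl x :: z, by simpa using hz1, by simpa using hz2, ?_⟩
        rw [DFA.evalFrom_cons]
        have hst : (compDFA g₁ h₂ M₁ M₂ (B₁ + B₂)).step (some (q₁, q₂, b)) (Sum.inl x) =
            some (M₁.step q₁ x, q₂, b ++ g₁ x) := by
          simp only [compDFA]; rw [if_pos (by simp; omega)]
        rw [hst, hz3]; simp

lemma transduce_comp [Finite Z₁] [Finite Z₂] (h₁ g₁ : Z₁ → List ℕ) (R₁ : Language Z₁)
    (h₂ g₂ : Z₂ → List ℕ) (R₂ : Language Z₂) (hR₁ : R₁.IsRegular) (hR₂ : R₂.IsRegular)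
    (L : Language ℕ) : ∃ (R : Language (Z₁ ⊕ Z₂)), R.IsRegular ∧
      transduce h₂ g₂ R₂ (transduce h₁ g₁ R₁ L) =
      transduce (Sum.elim h₁ (fun _ => [])) (Sum.elim (fun _ => []) g₂) R L := by
  classical
  have := Fintype.ofFinite Z₁
  have := Fintype.ofFinite Z₂
  obtain ⟨σ₁, _, M₁, rfl⟩ := hR₁
  obtain ⟨σ₂, _, M₂, rfl⟩ := hR₂
  let B₁ := Finset.univ.sup (fun z : Z₁ => (g₁ z).length)
  let B₂ := Finset.univ.sup (fun z : Z₂ => (h₂ z).length)
  have hB₁ : ∀ z, (g₁ z).length ≤ B₁ := fun z => Finset.le_sup (f := fun z : Z₁ => (g₁ z).length) (Finset.mem_univ z)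
  have hB₂ : ∀ z, (h₂ z).length ≤ B₂ := fun z => Finset.le_sup (f := fun z : Z₂ => (h₂ z).length) (Finset.mem_univ z)
  have hL : ∀ z : List (Z₁ ⊕ Z₂), z.flatMap (Sum.elim h₁ (fun _ => [])) = (prL z).flatMap h₁ := by
    intro z
    induction z with
    | nil => rfl
    | cons a z ih => rcases a with a | a <;> simp [ih]
  have hRr : ∀ z : List (Z₁ ⊕ Z₂), z.flatMap (Sum.elim (fun _ => []) g₂) = (prR z).flatMap g₂ := by
    intro z
    induction z with
    | nil => rfl
    | cons a z ih => rcases a with a | a <;> simp [ih]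
  refine ⟨(compDFA g₁ h₂ M₁ M₂ (B₁ + B₂)).accepts, regular_of_finite_reach _ (compDFA_reach _ _ _ _ _), ?_⟩
  apply Set.ext
  intro w
  constructor
  · rintro ⟨z₂, hz₂, ⟨z₁, hz₁, hz₁L, heq⟩, rfl⟩
    obtain ⟨z, h1, h2, h3⟩ := compDFA_complete g₁ h₂ M₁ M₂ B₁ B₂ hB₁ hB₂ _ z₁ z₂ rfl M₁.start M₂.start []
      (by simpa using heq) (by simp)
    refine ⟨z, ?_, ?_, ?_⟩
    · rw [DFA.mem_accepts]
      refine ⟨M₁.eval z₁, hz₁, M₂.eval z₂, hz₂, h3⟩
    · rw [hL, h1]; exact hz₁L
    · rw [hRr, h2]
  · rintro ⟨z, ⟨q₁, hq₁, q₂, hq₂, hz⟩, hzL, rfl⟩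
    obtain ⟨h1, h2, h3⟩ := compDFA_sound g₁ h₂ M₁ M₂ (B₁ + B₂) z _ _ _ _ _ _ hz
    refine ⟨prR z, ?_, ⟨prL z, ?_, ?_, ?_⟩, ?_⟩
    · change M₂.evalFrom M₂.start (prR z) ∈ M₂.accept
      rw [h2]; exact hq₂
    · change M₁.evalFrom M₁.start (prL z) ∈ M₁.accept
      rw [h1]; exact hq₁
    · rw [← hL]; exact hzL
    · simpa using h3
    · rw [hRr]

end comp


/-! ### The cone generated by `G` -/

/-- all images of `G` under rational transductions -/
def coneG (N : Set (Multiset (ℕ × ℕ))) : Set (Language ℕ) :=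
  {K | ∃ (Z : Type) (_ : Finite Z) (h g : Z → List ℕ) (R : Language Z),
    R.IsRegular ∧ K = transduce h g R (G N)}

variable {N : Set (Multiset (ℕ × ℕ))}

lemma overFinite_transduce {Z : Type} [Finite Z] (h g : Z → List ℕ) (R : Language Z)
    (L : Language ℕ) : OverFinite (transduce h g R L) := by
  classical
  have := Fintype.ofFinite Z
  refine ⟨Finset.univ.biUnion (fun z : Z => (g z).toFinset), ?_⟩
  rintro w ⟨z, _, _, rfl⟩ c hc
  obtain ⟨x, _, hx⟩ := List.mem_flatMap.1 hc
  exact Finset.mem_biUnion.2 ⟨x, Finset.mem_univ _, by simpa using hx⟩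

lemma coneG_isRationalCone : IsRationalCone (coneG N) := by
  refine ⟨?_, ?_⟩
  · rintro L ⟨Z, _, h, g, R, _, rfl⟩
    exact overFinite_transduce h g R (G N)
  · rintro L ⟨Z₁, _, h₁, g₁, R₁, hR₁, rfl⟩ Z₂ _ h₂ g₂ R₂ hR₂
    obtain ⟨R, hR, heq⟩ := transduce_comp h₁ g₁ R₁ h₂ g₂ R₂ hR₁ hR₂ (G N)
    exact ⟨Z₁ ⊕ Z₂, inferInstance, _, _, R, hR, heq⟩

lemma regular_univ {Z : Type} : (⊤ : Language Z).IsRegular := by
  refine ⟨Unit, inferInstance, ⟨fun _ _ => (), (), Set.univ⟩, ?_⟩
  apply Set.ext
  intro x
  constructor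
  · intro _; trivial
  · intro _; exact Set.mem_univ _

lemma G_mem_coneG : G N ∈ coneG N := by
  refine ⟨Fin 6, inferInstance, fun i => [i.val], fun i => [i.val], ⊤, regular_univ, ?_⟩
  apply Set.ext
  intro w
  have key : ∀ z : List (Fin 6), z.flatMap (fun i => [i.val]) = z.map Fin.val := by
    intro z; induction z with
    | nil => rfl
    | cons a z ih => simp [ih]
  constructor
  · intro hw
    refine ⟨w.pmap (fun a ha => (⟨a, ha⟩ : Fin 6)) hw.1, trivial, ?_, ?_⟩
    · have h1 : (w.pmap (fun a ha => (⟨a, ha⟩ : Fin 6)) hw.1).map Fin.val = w := by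
        rw [List.map_pmap]; simp
      rw [key, h1]; exact hw
    · rw [key, List.map_pmap]; simp
  · rintro ⟨z, _, hz, rfl⟩
    exact hz

lemma coneG_principal : IsPrincipalCone (coneG N) := by
  refine ⟨coneG_isRationalCone, G N, G_mem_coneG, ?_⟩
  rintro F' hF' hG K ⟨Z, _, h, g, R, hR, rfl⟩
  exact hF'.2 (G N) hG Z h g R hR

/-! ### Closure under product -/
section prod
variable {Z₁ Z₂ σ₁ σ₂ : Type}

open Classical in
/-- automaton for `R₁ $ R₂` -/
noncomputable def prodDFA (M₁ : DFA Z₁ σ₁) (M₂ : DFA Z₂ σ₂) :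
    DFA (Option (Z₁ ⊕ Z₂)) (Option (σ₁ ⊕ σ₂)) where
  step := fun q z => match q, z with
    | some (Sum.inl q), some (Sum.inl z) => some (Sum.inl (M₁.step q z))
    | some (Sum.inl q), none => if q ∈ M₁.accept then some (Sum.inr M₂.start) else none
    | some (Sum.inr q), some (Sum.inr z) => some (Sum.inr (M₂.step q z))
    | _, _ => none
  start := some (Sum.inl M₁.start)
  accept := {q | ∃ p ∈ M₂.accept, q = some (Sum.inr p)}

lemma prodDFA_none (M₁ : DFA Z₁ σ₁) (M₂ : DFA Z₂ σ₂) (z : List (Option (Z₁ ⊕ Z₂))) :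
    (prodDFA M₁ M₂).evalFrom none z = none := by
  induction z with
  | nil => rfl
  | cons a z ih =>
    rw [DFA.evalFrom_cons]
    have : (prodDFA M₁ M₂).step none a = none := by cases a <;> rfl
    rw [this]; exact ih

lemma prodDFA_inl (M₁ : DFA Z₁ σ₁) (M₂ : DFA Z₂ σ₂) (z : List Z₁) : ∀ q,
    (prodDFA M₁ M₂).evalFrom (some (Sum.inl q)) (z.map (fun x => some (Sum.inl x))) =
      some (Sum.inl (M₁.evalFrom q z)) := by
  induction z with
  | nil => intro q; rfl
  | cons a z ih => intro q; rw [List.map_cons, DFA.evalFrom_cons]; exact ih _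

lemma prodDFA_inr (M₁ : DFA Z₁ σ₁) (M₂ : DFA Z₂ σ₂) (z : List Z₂) : ∀ q,
    (prodDFA M₁ M₂).evalFrom (some (Sum.inr q)) (z.map (fun x => some (Sum.inr x))) =
      some (Sum.inr (M₂.evalFrom q z)) := by
  induction z with
  | nil => intro q; rfl
  | cons a z ih => intro q; rw [List.map_cons, DFA.evalFrom_cons]; exact ih _

lemma prodDFA_inr_inv (M₁ : DFA Z₁ σ₁) (M₂ : DFA Z₂ σ₂) (z : List (Option (Z₁ ⊕ Z₂))) : ∀ q p,
    (prodDFA M₁ M₂).evalFrom (some (Sum.inr q)) z = some (Sum.inr p) →
    ∃ z₂ : List Z₂, z = z₂.map (fun x => some (Sum.inr x)) ∧ M₂.evalFrom q z₂ = p := by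
  induction z with
  | nil =>
    intro q p h
    simp only [DFA.evalFrom_nil, Option.some.injEq, Sum.inr.injEq] at h
    exact ⟨[], rfl, h⟩
  | cons a z ih =>
    intro q p h
    rw [DFA.evalFrom_cons] at h
    rcases a with _ | a | a
    · have : (prodDFA M₁ M₂).step (some (Sum.inr q)) none = none := rfl
      rw [this, prodDFA_none] at h; cases h
    · have : (prodDFA M₁ M₂).step (some (Sum.inr q)) (some (Sum.inl a)) = none := rfl
      rw [this, prodDFA_none] at h; cases h
    · obtain ⟨z₂, rfl, h2⟩ := ih _ _ h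
      exact ⟨a :: z₂, rfl, h2⟩

lemma prodDFA_inl_inv (M₁ : DFA Z₁ σ₁) (M₂ : DFA Z₂ σ₂) (z : List (Option (Z₁ ⊕ Z₂))) : ∀ q p,
    (prodDFA M₁ M₂).evalFrom (some (Sum.inl q)) z = some (Sum.inr p) →
    ∃ (z₁ : List Z₁) (z₂ : List Z₂), z = z₁.map (fun x => some (Sum.inl x)) ++ none ::
      z₂.map (fun x => some (Sum.inr x)) ∧ M₁.evalFrom q z₁ ∈ M₁.accept ∧
      M₂.evalFrom M₂.start z₂ = p := by
  induction z with
  | nil =>
    intro q p h
    simp at h
  | cons a z ih =>
    intro q p h
    rw [DFA.evalFrom_cons] at h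
    rcases a with _ | a | a
    · by_cases hq : q ∈ M₁.accept
      · have : (prodDFA M₁ M₂).step (some (Sum.inl q)) none = some (Sum.inr M₂.start) := by
          simp only [prodDFA]; rw [if_pos hq]
        rw [this] at h
        obtain ⟨z₂, rfl, h2⟩ := prodDFA_inr_inv _ _ _ _ _ h
        exact ⟨[], z₂, rfl, hq, h2⟩
      · have : (prodDFA M₁ M₂).step (some (Sum.inl q)) none = none := by
          simp only [prodDFA]; rw [if_neg hq]
        rw [this, prodDFA_none] at h; cases h
    · obtain ⟨z₁, z₂, rfl, h2, h3⟩ := ih _ _ h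
      exact ⟨a :: z₁, z₂, rfl, h2, h3⟩
    · have : (prodDFA M₁ M₂).step (some (Sum.inl q)) (some (Sum.inr a)) = none := rfl
      rw [this, prodDFA_none] at h; cases h

lemma flatMap_recode {Z : Type} (s r : ℕ) (h : Z → List ℕ) (z : List Z) :
    z.flatMap (fun x => (h x).flatMap (recode s r)) = (z.flatMap h).flatMap (recode s r) := by
  rw [List.flatMap_assoc]

lemma flatMap_map' {X Y : Type} (f : X → Y) (h : Y → List ℕ) (z : List X) :
    (z.map f).flatMap h = z.flatMap (fun x => h (f x)) := by
  induction z with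
  | nil => rfl
  | cons a z ih => simp [ih]

lemma mem_G_iff_prod (hN : Good N) (u₁ u₂ : List ℕ) :
    (u₁.flatMap (recode 2 0) ++ 2 :: u₂.flatMap (recode 2 1)) ∈ G N ↔
      u₁ ∈ G N ∧ u₂ ∈ G N := by
  have hnet : ∀ i, net (u₁.flatMap (recode 2 0) ++ 2 :: u₂.flatMap (recode 2 1)) i =
      net (u₁.flatMap (recode 2 0)) i + net (u₂.flatMap (recode 2 1)) i := by
    intro i
    rw [net_append (by simp [lead_cons]), net_cons]; simp
  have hev : ∀ i, net (u₁.flatMap (recode 2 0)) (2 * i + 0) = net u₁ i := fun i =>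
    net_recode (by norm_num) u₁ i
  have hod : ∀ i, net (u₂.flatMap (recode 2 1)) (2 * i + 1) = net u₂ i := fun i =>
    net_recode (by norm_num) u₂ i
  have hev' : ∀ i, net (u₁.flatMap (recode 2 0)) (2 * i + 1) = 0 := fun i =>
    net_recode_other u₁ _ (fun j => by omega)
  have hod' : ∀ i, net (u₂.flatMap (recode 2 1)) (2 * i + 0) = 0 := fun i =>
    net_recode_other u₂ _ (fun j => by omega)
  constructor
  · rintro ⟨hlt, h0⟩
    refine ⟨⟨?_, ?_⟩, ⟨?_, ?_⟩⟩
    · rw [← lt_recode (s := 2) (r := 0)]
      intro c hc; exact hlt c (List.mem_append_left _ hc)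
    · intro i
      have := h0 (2 * i + 0)
      rw [hnet, hev, hod', add_zero] at this; exact this
    · rw [← lt_recode (s := 2) (r := 1)]
      intro c hc; exact hlt c (List.mem_append_right _ (List.mem_cons_of_mem _ hc))
    · intro i
      have := h0 (2 * i + 1)
      rw [hnet, hod, hev', zero_add] at this; exact this
  · rintro ⟨⟨h1, h2⟩, ⟨h3, h4⟩⟩
    refine ⟨?_, ?_⟩
    · intro c hc
      rcases List.mem_append.1 hc with hc | hc
      · exact (lt_recode (s := 2) (r := 0) u₁).2 h1 c hc
      · rcases List.mem_cons.1 hc with rfl | hc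
        · norm_num
        · exact (lt_recode (s := 2) (r := 1) u₂).2 h3 c hc
    · intro i
      rw [hnet]
      rcases Nat.even_or_odd' i with ⟨k, rfl | rfl⟩
      · have a := hev k; have b := hod' k
        simp only [add_zero] at a b
        rw [a, b, add_zero]; exact h2 k
      · rw [hev', hod, zero_add]; exact h4 k

lemma coneG_product (hN : Good N) : ProductClosed (coneG N) := by
  rintro L₁ ⟨Z₁, _, h₁, g₁, R₁, ⟨σ₁, _, M₁, rfl⟩, rfl⟩ L₂ ⟨Z₂, _, h₂, g₂, R₂, ⟨σ₂, _, M₂, rfl⟩, rfl⟩
  refine ⟨Option (Z₁ ⊕ Z₂), inferInstance,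
    fun x => match x with
      | none => [2]
      | some (Sum.inl z) => (h₁ z).flatMap (recode 2 0)
      | some (Sum.inr z) => (h₂ z).flatMap (recode 2 1),
    fun x => match x with
      | none => []
      | some (Sum.inl z) => g₁ z
      | some (Sum.inr z) => g₂ z,
    (prodDFA M₁ M₂).accepts, ⟨_, inferInstance, _, rfl⟩, ?_⟩
  apply Set.ext
  intro w
  constructor
  · rintro ⟨_, ⟨z₁, hz₁, hG₁, rfl⟩, _, ⟨z₂, hz₂, hG₂, rfl⟩, rfl⟩
    refine ⟨z₁.map (fun x => some (Sum.inl x)) ++ none :: z₂.map (fun x => some (Sum.inr x)),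
      ?_, ?_, ?_⟩
    · change (prodDFA M₁ M₂).evalFrom (prodDFA M₁ M₂).start _ ∈ (prodDFA M₁ M₂).accept
      rw [DFA.evalFrom_of_append]
      change (prodDFA M₁ M₂).evalFrom ((prodDFA M₁ M₂).evalFrom (some (Sum.inl M₁.start)) _) _ ∈
        (prodDFA M₁ M₂).accept
      rw [prodDFA_inl, DFA.evalFrom_cons]
      have : (prodDFA M₁ M₂).step (some (Sum.inl (M₁.evalFrom M₁.start z₁))) none =
          some (Sum.inr M₂.start) := by
        simp only [prodDFA]; rw [if_pos]; exact hz₁
      rw [this, prodDFA_inr]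
      exact ⟨_, hz₂, rfl⟩
    · rw [List.flatMap_append, List.flatMap_cons, flatMap_map', flatMap_map']
      simp only [flatMap_recode]
      exact (mem_G_iff_prod hN _ _).2 ⟨hG₁, hG₂⟩
    · rw [List.flatMap_append, List.flatMap_cons, flatMap_map', flatMap_map']
      simp
  · rintro ⟨z, ⟨p, hp, hz⟩, hG, rfl⟩
    obtain ⟨z₁, z₂, rfl, h1, h2⟩ := prodDFA_inl_inv M₁ M₂ z _ _ hz
    rw [List.flatMap_append, List.flatMap_cons, flatMap_map', flatMap_map'] at hG
    simp only [flatMap_recode] at hG
    have := (mem_G_iff_prod hN _ _).1 hG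
    refine ⟨_, ⟨z₁, h1, this.1, rfl⟩, _, ⟨z₂, ?_, this.2, rfl⟩, ?_⟩
    · change M₂.evalFrom M₂.start z₂ ∈ M₂.accept
      rw [h2]; exact hp
    · rw [List.flatMap_append, List.flatMap_cons, flatMap_map', flatMap_map']
      simp

end prod

/-! ### Translatability -/
section trans
variable {Z σ : Type}

open Classical in
/-- automaton for `X⁺ R Y⁺` (`X = inl true`, `Y = inl false`) -/
noncomputable def transDFA (M : DFA Z σ) : DFA (Bool ⊕ Z) (Option (Fin 4 × σ)) where
  step := fun q z => match q, z with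
    | some (0, q), Sum.inl true => some (1, q)
    | some (1, q), Sum.inl true => some (1, q)
    | some (1, q), Sum.inr z => some (2, M.step q z)
    | some (2, q), Sum.inr z => some (2, M.step q z)
    | some (1, q), Sum.inl false => if q ∈ M.accept then some (3, q) else none
    | some (2, q), Sum.inl false => if q ∈ M.accept then some (3, q) else none
    | some (3, q), Sum.inl false => some (3, q)
    | _, _ => none
  start := some (0, M.start)
  accept := {q | ∃ p, q = some (3, p)}

lemma transDFA_none (M : DFA Z σ) (z : List (Bool ⊕ Z)) : (transDFA M).evalFrom none z = none := by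
  induction z with
  | nil => rfl
  | cons a z ih =>
    rw [DFA.evalFrom_cons]
    exact ih

lemma transDFA_Y (M : DFA Z σ) (m : ℕ) (q : σ) :
    (transDFA M).evalFrom (some (3, q)) (replicate m (Sum.inl false)) = some (3, q) := by
  induction m with
  | zero => rfl
  | succ m ih => rw [replicate_succ, DFA.evalFrom_cons]; exact ih

lemma transDFA_X (M : DFA Z σ) (n : ℕ) (q : σ) :
    (transDFA M).evalFrom (some (1, q)) (replicate n (Sum.inl true)) = some (1, q) := by
  induction n with
  | zero => rfl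
  | succ n ih => rw [replicate_succ, DFA.evalFrom_cons]; exact ih

lemma transDFA_2 (M : DFA Z σ) (z : List Z) : ∀ q m, M.evalFrom q z ∈ M.accept →
    ∃ p, (transDFA M).evalFrom (some (2, q)) (z.map Sum.inr ++ replicate (m + 1) (Sum.inl false)) =
      some (3, p) := by
  induction z with
  | nil =>
    intro q m h
    refine ⟨q, ?_⟩
    rw [List.map_nil, List.nil_append, replicate_succ, DFA.evalFrom_cons]
    have : (transDFA M).step (some (2, q)) (Sum.inl false) = some (3, q) := by
      simp only [transDFA]; rw [if_pos]; exact h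
    rw [this, transDFA_Y]
  | cons a z ih =>
    intro q m h
    obtain ⟨p, hp⟩ := ih (M.step q a) m h
    exact ⟨p, by rw [List.map_cons, List.cons_append, DFA.evalFrom_cons]; exact hp⟩

lemma transDFA_1 (M : DFA Z σ) (z : List Z) (q : σ) (m : ℕ) (h : M.evalFrom q z ∈ M.accept) :
    ∃ p, (transDFA M).evalFrom (some (1, q)) (z.map Sum.inr ++ replicate (m + 1) (Sum.inl false)) =
      some (3, p) := by
  cases z with
  | nil =>
    refine ⟨q, ?_⟩
    rw [List.map_nil, List.nil_append, replicate_succ, DFA.evalFrom_cons]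
    have : (transDFA M).step (some (1, q)) (Sum.inl false) = some (3, q) := by
      simp only [transDFA]; rw [if_pos]; exact h
    rw [this, transDFA_Y]
  | cons a z =>
    obtain ⟨p, hp⟩ := transDFA_2 M z (M.step q a) m h
    exact ⟨p, by rw [List.map_cons, List.cons_append, DFA.evalFrom_cons]; exact hp⟩

lemma transDFA_3_inv (M : DFA Z σ) (z : List (Bool ⊕ Z)) : ∀ q p,
    (transDFA M).evalFrom (some (3, q)) z = some (3, p) → ∃ m, z = replicate m (Sum.inl false) := by
  induction z with
  | nil => intro q p _; exact ⟨0, rfl⟩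
  | cons a z ih =>
    intro q p h
    rw [DFA.evalFrom_cons] at h
    rcases a with a | a
    · cases a
      · obtain ⟨m, rfl⟩ := ih _ _ h
        exact ⟨m + 1, rfl⟩
      · have : (transDFA M).step (some (3, q)) (Sum.inl true) = none := rfl
        rw [this, transDFA_none] at h; cases h
    · have : (transDFA M).step (some (3, q)) (Sum.inr a) = none := rfl
      rw [this, transDFA_none] at h; cases h

lemma transDFA_2_inv (M : DFA Z σ) (z : List (Bool ⊕ Z)) : ∀ q p,
    (transDFA M).evalFrom (some (2, q)) z = some (3, p) →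
    ∃ (z' : List Z) (m : ℕ), z = z'.map Sum.inr ++ replicate (m + 1) (Sum.inl false) ∧
      M.evalFrom q z' ∈ M.accept := by
  induction z with
  | nil => intro q p h; simp at h
  | cons a z ih =>
    intro q p h
    rw [DFA.evalFrom_cons] at h
    rcases a with a | a
    · cases a
      · by_cases hq : q ∈ M.accept
        · have : (transDFA M).step (some (2, q)) (Sum.inl false) = some (3, q) := by
            simp only [transDFA]; rw [if_pos hq]
          rw [this] at h
          obtain ⟨m, rfl⟩ := transDFA_3_inv M z _ _ h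
          exact ⟨[], m, rfl, hq⟩
        · have : (transDFA M).step (some (2, q)) (Sum.inl false) = none := by
            simp only [transDFA]; rw [if_neg hq]
          rw [this, transDFA_none] at h; cases h
      · have : (transDFA M).step (some (2, q)) (Sum.inl true) = none := rfl
        rw [this, transDFA_none] at h; cases h
    · obtain ⟨z', m, rfl, h2⟩ := ih _ _ h
      exact ⟨a :: z', m, rfl, h2⟩

lemma transDFA_1_inv (M : DFA Z σ) (z : List (Bool ⊕ Z)) : ∀ q p,
    (transDFA M).evalFrom (some (1, q)) z = some (3, p) →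
    ∃ (n : ℕ) (z' : List Z) (m : ℕ), z = replicate n (Sum.inl true) ++ (z'.map Sum.inr ++
      replicate (m + 1) (Sum.inl false)) ∧ M.evalFrom q z' ∈ M.accept := by
  induction z with
  | nil => intro q p h; simp at h
  | cons a z ih =>
    intro q p h
    rw [DFA.evalFrom_cons] at h
    rcases a with a | a
    · cases a
      · by_cases hq : q ∈ M.accept
        · have : (transDFA M).step (some (1, q)) (Sum.inl false) = some (3, q) := by
            simp only [transDFA]; rw [if_pos hq]
          rw [this] at h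
          obtain ⟨m, rfl⟩ := transDFA_3_inv M z _ _ h
          exact ⟨0, [], m, rfl, hq⟩
        · have : (transDFA M).step (some (1, q)) (Sum.inl false) = none := by
            simp only [transDFA]; rw [if_neg hq]
          rw [this, transDFA_none] at h; cases h
      · obtain ⟨n, z', m, rfl, h2⟩ := ih _ _ h
        exact ⟨n + 1, z', m, rfl, h2⟩
    · obtain ⟨z', m, rfl, h2⟩ := transDFA_2_inv M z _ _ h
      exact ⟨0, a :: z', m, rfl, h2⟩

lemma transDFA_0_inv (M : DFA Z σ) (z : List (Bool ⊕ Z)) (q p : σ)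
    (h : (transDFA M).evalFrom (some (0, q)) z = some (3, p)) :
    ∃ (n : ℕ) (z' : List Z) (m : ℕ), z = replicate (n + 1) (Sum.inl true) ++ (z'.map Sum.inr ++
      replicate (m + 1) (Sum.inl false)) ∧ M.evalFrom q z' ∈ M.accept := by
  rcases z with _ | ⟨a, z⟩
  · simp at h
  · rw [DFA.evalFrom_cons] at h
    rcases a with a | a
    · cases a
      · have : (transDFA M).step (some (0, q)) (Sum.inl false) = none := rfl
        rw [this, transDFA_none] at h; cases h
      · obtain ⟨n, z', m, rfl, h2⟩ := transDFA_1_inv M z _ _ h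
        exact ⟨n, z', m, rfl, h2⟩
    · have : (transDFA M).step (some (0, q)) (Sum.inr a) = none := rfl
      rw [this, transDFA_none] at h; cases h

lemma net_X (n : ℕ) (v : List ℕ) (i : ℕ) :
    net ((replicate n [0, 2]).flatten ++ v) i = net v i +
      (if i = 0 then Multiset.replicate n (0, 0) else 0) := by
  induction n with
  | zero => simp
  | succ n ih =>
    rw [replicate_succ, List.flatten_cons, List.append_assoc]
    change net (0 :: 2 :: ((replicate n [0, 2]).flatten ++ v)) i = _
    rw [net_cons, net_cons, ih]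
    by_cases hi : i = 0
    · subst hi
      have e : lead (2 :: ((replicate n [0, 2]).flatten ++ v)) = 0 := by simp [lead_cons]
      rw [e]
      simp only [if_true, Multiset.replicate_succ, ← Multiset.singleton_add]
      norm_num
      rw [← Multiset.singleton_add]
      abel
    · have : ¬ (0 = i) := fun h => hi h.symm
      simp [lead_cons, hi, this]

lemma lead_Y (m : ℕ) : lead ((replicate m [1, 2]).flatten) = 0 := by
  cases m with
  | zero => rfl
  | succ m => rw [replicate_succ, List.flatten_cons]; simp [lead_cons]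

lemma net_Y (m : ℕ) (i : ℕ) :
    net ((replicate m [1, 2]).flatten) i = (if i = 0 then Multiset.replicate m (1, 0) else 0) := by
  induction m with
  | zero => simp
  | succ m ih =>
    rw [replicate_succ, List.flatten_cons]
    change net (1 :: 2 :: ((replicate m [1, 2]).flatten)) i = _
    rw [net_cons, net_cons, ih]
    by_cases hi : i = 0
    · subst hi
      have e : lead (2 :: ((replicate m [1, 2]).flatten)) = 0 := by simp [lead_cons]
      rw [e]
      simp only [if_true, Multiset.replicate_succ, ← Multiset.singleton_add]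
      norm_num
      rw [← Multiset.singleton_add]
      abel
    · have : ¬ (0 = i) := fun h => hi h.symm
      simp [lead_cons, hi, this]

lemma mem_G_iff_trans (hN : Good N) (n m : ℕ) (u : List ℕ) :
    ((replicate n [0, 2]).flatten ++ (u.flatMap (recode 1 1) ++ (replicate m [1, 2]).flatten)) ∈
      G N ↔ n = m ∧ u ∈ G N := by
  have hnet : ∀ i, net ((replicate n [0, 2]).flatten ++ (u.flatMap (recode 1 1) ++
      (replicate m [1, 2]).flatten)) i = net (u.flatMap (recode 1 1)) i +
      (if i = 0 then Multiset.replicate m (1, 0) else 0) +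
      (if i = 0 then Multiset.replicate n (0, 0) else 0) := by
    intro i
    rw [net_X, net_append (lead_Y m), net_Y]
  have h0 : net (u.flatMap (recode 1 1)) 0 = 0 := net_recode_other u 0 (fun i => by omega)
  have hs : ∀ i, net (u.flatMap (recode 1 1)) (i + 1) = net u i := by
    intro i
    have := net_recode (s := 1) (r := 1) le_rfl u i
    rwa [one_mul] at this
  constructor
  · rintro ⟨hlt, hz⟩
    refine ⟨?_, ?_, ?_⟩
    · have := hz 0
      rw [hnet, h0, if_pos rfl, if_pos rfl, zero_add] at this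
      exact (hN.bal n m).1 this
    · rw [← lt_recode (s := 1) (r := 1)]
      intro c hc
      exact hlt c (List.mem_append_right _ (List.mem_append_left _ hc))
    · intro i
      have := hz (i + 1)
      rw [hnet, hs, if_neg (Nat.succ_ne_zero i), if_neg (Nat.succ_ne_zero i), add_zero,
        add_zero] at this
      exact this
  · rintro ⟨rfl, h1, h2⟩
    refine ⟨?_, ?_⟩
    · intro c hc
      rcases List.mem_append.1 hc with hc | hc
      · obtain ⟨l, hl, hc⟩ := List.mem_flatten.1 hc
        rw [List.eq_of_mem_replicate hl] at hc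
        simp at hc; omega
      · rcases List.mem_append.1 hc with hc | hc
        · exact (lt_recode (s := 1) (r := 1) u).2 h1 c hc
        · obtain ⟨l, hl, hc⟩ := List.mem_flatten.1 hc
          rw [List.eq_of_mem_replicate hl] at hc
          simp at hc; omega
    · intro i
      rw [hnet]
      rcases i with _ | i
      · rw [h0, if_pos rfl, if_pos rfl, zero_add]; exact (hN.bal n n).2 rfl
      · rw [hs, if_neg (Nat.succ_ne_zero i), if_neg (Nat.succ_ne_zero i), add_zero, add_zero]
        exact h2 i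

lemma flatMap_replicate' {X : Type} (f : X → List ℕ) (x : X) (n : ℕ) :
    (replicate n x).flatMap f = (replicate n (f x)).flatten := by
  rw [List.flatMap_replicate]

lemma flatten_replicate_singleton (n a : ℕ) : (replicate n [a]).flatten = replicate n a := by
  induction n with
  | zero => rfl
  | succ n ih => rw [replicate_succ, List.flatten_cons, ih, replicate_succ]; rfl

lemma coneG_translatable (hN : Good N) : Translatable (coneG N) := by
  rintro L ⟨Z, _, h, g, R, ⟨σ, _, M, rfl⟩, rfl⟩ a b _ _
  let h' : Bool ⊕ Z → List ℕ := Sum.elim (fun c => if c = true then [0, 2] else [1, 2])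
    (fun z => (h z).flatMap (recode 1 1))
  let g' : Bool ⊕ Z → List ℕ := Sum.elim (fun c => if c = true then [a] else [b]) g
  have hh : ∀ (n : ℕ) (z : List Z) (m : ℕ), (replicate n (Sum.inl true) ++ (z.map Sum.inr ++
      replicate m (Sum.inl false))).flatMap h' = (replicate n [0, 2]).flatten ++
      ((z.flatMap h).flatMap (recode 1 1) ++ (replicate m [1, 2]).flatten) := by
    intro n z m
    rw [List.flatMap_append, List.flatMap_append, flatMap_map', flatMap_replicate',
      flatMap_replicate']
    simp only [h', Sum.elim_inl, Sum.elim_inr, flatMap_recode]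
    simp
  have hg : ∀ (n : ℕ) (z : List Z) (m : ℕ), (replicate n (Sum.inl true) ++ (z.map Sum.inr ++
      replicate m (Sum.inl false))).flatMap g' = replicate n a ++
      (z.flatMap g ++ replicate m b) := by
    intro n z m
    rw [List.flatMap_append, List.flatMap_append, flatMap_map', flatMap_replicate',
      flatMap_replicate']
    simp only [g', Sum.elim_inl, Sum.elim_inr]
    simp
  refine ⟨Bool ⊕ Z, inferInstance, h', g', (transDFA M).accepts, ⟨_, inferInstance, _, rfl⟩, ?_⟩
  apply Set.ext
  intro w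
  constructor
  · rintro ⟨n, hn, _, ⟨z, hz, hG, rfl⟩, rfl⟩
    obtain ⟨n, rfl⟩ : ∃ k, n = k + 1 := ⟨n - 1, by omega⟩
    refine ⟨replicate (n + 1) (Sum.inl true) ++ (z.map Sum.inr ++
      replicate (n + 1) (Sum.inl false)), ?_, ?_, ?_⟩
    · obtain ⟨p, hp⟩ := transDFA_1 M z M.start n hz
      refine ⟨p, ?_⟩
      rw [DFA.evalFrom_of_append, replicate_succ, DFA.evalFrom_cons]
      change (transDFA M).evalFrom ((transDFA M).evalFrom (some (1, M.start)) _) _ = _
      rw [transDFA_X]; exact hp
    · rw [hh]; exact (mem_G_iff_trans hN _ _ _).2 ⟨rfl, hG⟩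
    · rw [hg, List.append_assoc]
  · rintro ⟨z, ⟨p, hp⟩, hG, rfl⟩
    obtain ⟨n, z', m, rfl, hacc⟩ := transDFA_0_inv M z _ _ hp
    rw [hh] at hG
    obtain ⟨hnm, hG'⟩ := (mem_G_iff_trans hN _ _ _).1 hG
    refine ⟨n + 1, by omega, _, ⟨z', hacc, hG', rfl⟩, ?_⟩
    rw [hg, List.append_assoc, hnm]

end trans

/-! ### Marked palindromes -/

/-- marked palindromes `{w 2 wᴿ : w ∈ {0,1}*}` -/
def Pal : Language ℕ := {v | ∃ w : List ℕ, (∀ c ∈ w, c < 2) ∧ v = w ++ 2 :: w.reverse}

lemma Pal_overFinite : OverFinite Pal := by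
  refine ⟨{0, 1, 2}, ?_⟩
  rintro _ ⟨w, hw, rfl⟩ c hc
  simp only [Finset.mem_insert, Finset.mem_singleton]
  rcases List.mem_append.1 hc with hc | hc
  · have := hw c hc; omega
  · rcases List.mem_cons.1 hc with hc | hc
    · omega
    · have := hw c (List.mem_reverse.1 hc); omega


open Symbol in
/-- rules `S → 0S0 | 1S1 | 2` -/
def palRules : Finset (ContextFreeRule ℕ Unit) :=
  {⟨(), [terminal 0, nonterminal (), terminal 0]⟩,
    ⟨(), [terminal 1, nonterminal (), terminal 1]⟩, ⟨(), [terminal 2]⟩}

open Symbol in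
lemma mem_palRules (r : ContextFreeRule ℕ Unit) : r ∈ palRules ↔
    r = ⟨(), [terminal 0, nonterminal (), terminal 0]⟩ ∨
    r = ⟨(), [terminal 1, nonterminal (), terminal 1]⟩ ∨ r = ⟨(), [terminal 2]⟩ := by
  unfold palRules
  rw [Finset.mem_insert, Finset.mem_insert, Finset.mem_singleton]

/-- the grammar `S → 0S0 | 1S1 | 2` -/
def palGrammar : ContextFreeGrammar ℕ where
  NT := Unit
  initial := ()
  rules := palRules

open Symbol in
lemma pal_derives (w : List ℕ) (hw : ∀ c ∈ w, c < 2) :
    palGrammar.Derives [nonterminal ()] ((w ++ 2 :: w.reverse).map terminal) := by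
  induction w with
  | nil =>
    apply ContextFreeGrammar.Produces.single
    exact ⟨⟨(), [terminal 2]⟩, (mem_palRules _).2 (Or.inr (Or.inr rfl)),
      ContextFreeRule.Rewrites.input_output⟩
  | cons c w ih =>
    have h1 : palGrammar.Produces [nonterminal ()] [terminal c, nonterminal (), terminal c] := by
      refine ⟨⟨(), [terminal c, nonterminal (), terminal c]⟩, (mem_palRules _).2 ?_, ?_⟩
      · have : c = 0 ∨ c = 1 := by have := hw c (by simp); omega
        rcases this with rfl | rfl
        · exact Or.inl rfl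
        · exact Or.inr (Or.inl rfl)
      · exact ContextFreeRule.Rewrites.input_output
    have h2 := ih (fun d hd => hw d (by simp [hd]))
    have h3 := (h2.append_left [terminal c]).append_right [terminal c]
    have h4 := h1.trans_derives h3
    simpa using h4

open Symbol in
lemma pal_inv (v : List (Symbol ℕ Unit))
    (hv : Relation.ReflTransGen palGrammar.Produces [nonterminal ()] v) :
    ∃ w : List ℕ, (∀ c ∈ w, c < 2) ∧
      (v = w.map terminal ++ nonterminal () :: (w.reverse.map terminal) ∨
       v = w.map terminal ++ terminal 2 :: (w.reverse.map terminal)) := by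
  induction hv with
  | refl => exact ⟨[], by simp, Or.inl rfl⟩
  | @tail b c _ hbc ih =>
    obtain ⟨w, hw, h⟩ := ih
    have hbc' : ∃ r ∈ palRules, ContextFreeRule.Rewrites r b c := hbc
    obtain ⟨r, hr, hrw⟩ := hbc'
    rcases h with h | h
    · obtain ⟨p, q, hp, hq⟩ := hrw.exists_parts
      rw [h] at hp
      have hnot : ∀ l : List ℕ, (nonterminal r.input : Symbol ℕ Unit) ∉ l.map terminal := by
        intro l hl
        obtain ⟨a, _, ha⟩ := List.mem_map.1 hl
        cases ha
      have hp' : w.map terminal ++ nonterminal () :: (w.reverse.map terminal) =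
          p ++ (nonterminal r.input : Symbol ℕ Unit) :: q := by
        rw [hp]; simp
      obtain ⟨h1, _, h3⟩ := (List.append_cons_inj_of_notMem (hnot w) (hnot w.reverse)).1 hp'
      subst h1; subst h3
      rcases (mem_palRules r).1 hr with rfl | rfl | rfl
      · refine ⟨w ++ [0], ?_, Or.inl ?_⟩
        · intro c hc; rcases List.mem_append.1 hc with hc | hc
          · exact hw c hc
          · simp at hc; omega
        · rw [hq]; simp
      · refine ⟨w ++ [1], ?_, Or.inl ?_⟩
        · intro c hc; rcases List.mem_append.1 hc with hc | hc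
          · exact hw c hc
          · simp at hc; omega
        · rw [hq]; simp
      · exact ⟨w, hw, Or.inr (by rw [hq]; simp)⟩
    · exfalso
      have := hrw.nonterminal_input_mem
      rw [h] at this
      rcases List.mem_append.1 this with h1 | h1
      · obtain ⟨a, _, ha⟩ := List.mem_map.1 h1; cases ha
      · rcases List.mem_cons.1 h1 with h1 | h1
        · cases h1
        · obtain ⟨a, _, ha⟩ := List.mem_map.1 h1; cases ha

lemma Pal_contextFree : Pal.IsContextFree := by
  refine ⟨palGrammar, ?_⟩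
  apply Set.ext
  intro v
  constructor
  · intro hv
    have hv' : palGrammar.Derives [Symbol.nonterminal ()] (v.map Symbol.terminal) :=
      (ContextFreeGrammar.mem_language_iff _ _).1 hv
    obtain ⟨w, hw, h | h⟩ := pal_inv _ hv'
    · exfalso
      have h1 : (Symbol.nonterminal () : Symbol ℕ Unit) ∈
          w.map Symbol.terminal ++ Symbol.nonterminal () :: (w.reverse.map Symbol.terminal) := by simp
      have h2 : (Symbol.nonterminal () : Symbol ℕ Unit) ∈ v.map (Symbol.terminal : ℕ → Symbol ℕ Unit) :=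
by
        have h' : v.map (Symbol.terminal : ℕ → Symbol ℕ Unit) = _ := h
        rw [h']; exact h1
      obtain ⟨a, _, ha⟩ := List.mem_map.1 h2; cases ha
    · refine ⟨w, hw, ?_⟩
      have hinj : Function.Injective (Symbol.terminal : ℕ → Symbol ℕ Unit) := by
        intro a b hab; cases hab; rfl
      apply hinj.list_map
      have h3 : (w ++ 2 :: w.reverse).map (Symbol.terminal : ℕ → Symbol ℕ Unit) =
        w.map Symbol.terminal ++ Symbol.terminal 2 :: (w.reverse.map Symbol.terminal) := by simp
      rw [h3]; exact h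
  · rintro ⟨w, hw, rfl⟩
    exact (ContextFreeGrammar.mem_language_iff _ _).2 (pal_derives w hw)

/-! ### The words `0^k 1 0^(k+1) 1 ...` -/

/-- `0^k 1 0^{k+1} 1 ⋯` with `n` blocks -/
def W : ℕ → ℕ → List ℕ
  | _, 0 => []
  | k, n + 1 => replicate k 0 ++ 1 :: W (k + 1) n

lemma W_lt (n : ℕ) : ∀ k, ∀ c ∈ W k n, c < 2 := by
  induction n with
  | zero => intro k c hc; simp [W] at hc
  | succ n ih =>
    intro k c hc
    rw [W] at hc
    rcases List.mem_append.1 hc with hc | hc
    · rw [List.eq_of_mem_replicate hc]; norm_num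
    · rcases List.mem_cons.1 hc with rfl | hc
      · norm_num
      · exact ih _ c hc

lemma count_W (n : ℕ) : ∀ k, (W k n).count 1 = n := by
  induction n with
  | zero => intro k; rfl
  | succ n ih => intro k; rw [W, List.count_append, List.count_cons, ih]; simp [List.count_replicate]

lemma split_aux (a : ℕ) : ∀ (X A Y : List ℕ), replicate a 0 ++ 1 :: X = A ++ 1 :: Y →
    (A = replicate a 0 ∧ X = Y) ∨ ∃ A', A = replicate a 0 ++ 1 :: A' ∧ X = A' ++ 1 :: Y := by
  induction a with
  | zero =>
    intro X A Y h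
    rcases A with _ | ⟨c, A⟩
    · left; simpa using h
    · right
      simp only [replicate_zero, List.nil_append, List.cons_append, List.cons.injEq] at h
      obtain ⟨rfl, h⟩ := h
      exact ⟨A, rfl, h⟩
  | succ a ih =>
    intro X A Y h
    rw [replicate_succ, List.cons_append] at h
    rcases A with _ | ⟨c, A⟩
    · simp at h
    · simp only [List.cons_append, List.cons.injEq] at h
      obtain ⟨rfl, h⟩ := h
      rcases ih X A Y h with ⟨rfl, rfl⟩ | ⟨A', rfl, rfl⟩
      · left; exact ⟨by rw [replicate_succ], rfl⟩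
      · right; exact ⟨A', by rw [replicate_succ]; rfl, rfl⟩

lemma repl_inj (a : ℕ) : ∀ (b : ℕ) (X Y : List ℕ), replicate a 0 ++ 1 :: X = replicate b 0 ++ 1 :: Y →
    a = b := by
  induction a with
  | zero =>
    intro b X Y h
    rcases b with _ | b
    · rfl
    · rw [replicate_succ] at h; simp at h
  | succ a ih =>
    intro b X Y h
    rcases b with _ | b
    · rw [replicate_succ] at h; simp at h
    · rw [replicate_succ, replicate_succ] at h
      simp only [List.cons_append, List.cons.injEq, true_and] at h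
      rw [ih b X Y h]

lemma W_key (n : ℕ) : ∀ (k m : ℕ) (A B : List ℕ), W k n = A ++ 1 :: (replicate m 0 ++ 1 :: B) →
    m = k + A.count 1 + 1 := by
  induction n with
  | zero => intro k m A B h; simp [W] at h
  | succ n ih =>
    intro k m A B h
    rw [W] at h
    rcases split_aux k _ _ _ h with ⟨rfl, h2⟩ | ⟨A', rfl, h2⟩
    · rcases n with _ | n
      · simp [W] at h2
      · rw [W] at h2
        have := repl_inj _ _ _ _ h2
        rw [List.count_replicate]; simp; omega
    · have := ih _ _ _ _ h2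
      rw [List.count_append, List.count_cons, List.count_replicate]; simp; omega

lemma factor_aux1 (s : List ℕ) (hs : ∀ c ∈ s, c < 2) (h : 1 ≤ s.count 1) :
    ∃ m β, s = replicate m 0 ++ 1 :: β := by
  induction s with
  | nil => simp at h
  | cons c s ih =>
    have hc : c = 0 ∨ c = 1 := by have := hs c (by simp); omega
    rcases hc with rfl | rfl
    · have h' : 1 ≤ s.count 1 := by rw [List.count_cons] at h; simpa using h
      obtain ⟨m, β, rfl⟩ := ih (fun d hd => hs d (by simp [hd])) h'
      exact ⟨m + 1, β, by rw [replicate_succ]; rfl⟩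
    · exact ⟨0, s, rfl⟩

lemma factor_aux (s : List ℕ) (hs : ∀ c ∈ s, c < 2) (h : 2 ≤ s.count 1) :
    ∃ α m β, s = α ++ 1 :: (replicate m 0 ++ 1 :: β) := by
  induction s with
  | nil => simp at h
  | cons c s ih =>
    have hc : c = 0 ∨ c = 1 := by have := hs c (by simp); omega
    rcases hc with rfl | rfl
    · have h' : 2 ≤ s.count 1 := by rw [List.count_cons] at h; simpa using h
      obtain ⟨α, m, β, rfl⟩ := ih (fun d hd => hs d (by simp [hd])) h'
      exact ⟨0 :: α, m, β, rfl⟩
    · have h' : 1 ≤ s.count 1 := by rw [List.count_cons_self] at h; omega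
      obtain ⟨m, β, rfl⟩ := factor_aux1 s (fun d hd => hs d (by simp [hd])) h'
      exact ⟨[], m, β, rfl⟩

lemma swap_contra_aux (N : ℕ) (X s y s' t : List ℕ) (hlen : s.length ≤ s'.length)
    (h1 : W 0 N = X ++ (s ++ (y ++ (s' ++ t)))) (h2 : W 0 N = X ++ (s' ++ (y ++ (s ++ t))))
    (hs : 2 ≤ s.count 1) : False := by
  have hpre : s <+: s' := by
    have h3 : s ++ (y ++ (s' ++ t)) = s' ++ (y ++ (s ++ t)) := List.append_cancel_left (h1.symm.trans h2)
    exact List.prefix_of_prefix_length_le ⟨_, rfl⟩ ⟨_, h3.symm⟩ hlen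
  obtain ⟨e, rfl⟩ := hpre
  have hlt : ∀ c ∈ s, c < 2 := by
    intro c hc
    apply W_lt N 0 c
    rw [h1]; simp [hc]
  obtain ⟨α, m, β, hsf⟩ := factor_aux s hlt hs
  have hA : m = 0 + (X ++ α).count 1 + 1 := by
    apply W_key N 0 m (X ++ α) (β ++ (y ++ ((s ++ e) ++ t)))
    rw [h1]; nth_rewrite 1 [hsf]; simp
  have hB : m = 0 + (X ++ s ++ y ++ α).count 1 + 1 := by
    apply W_key N 0 m (X ++ s ++ y ++ α) (β ++ (e ++ t))
    rw [h1]; nth_rewrite 2 [hsf]; simp
  simp only [List.count_append] at hA hB
  omega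

lemma swap_contra (N : ℕ) (X s y s' t : List ℕ)
    (h1 : W 0 N = X ++ (s ++ (y ++ (s' ++ t)))) (h2 : W 0 N = X ++ (s' ++ (y ++ (s ++ t))))
    (hs : 2 ≤ s.count 1) (hs' : 2 ≤ s'.count 1) : False := by
  rcases le_total s.length s'.length with h | h
  · exact swap_contra_aux N X s y s' t h h1 h2 hs
  · exact swap_contra_aux N X s' y s t h h2 h1 hs'

/-! ### The swap lemma -/
section swap
variable {Z σ : Type}

/-- the factor of `z` between the positions `a` and `b` -/
def slice (z : List Z) (a b : ℕ) : List Z := (z.take b).drop a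

lemma take_slice (z : List Z) {a b : ℕ} (h : a ≤ b) : z.take b = z.take a ++ slice z a b := by
  unfold slice
  have : (z.take b).take a = z.take a := by rw [List.take_take, min_eq_left h]
  rw [← this, List.take_append_drop]

/-- number of ones in the output after `p` letters -/
def cnt (g : Z → List ℕ) (z : List Z) (p : ℕ) : ℕ := ((z.take p).flatMap g).count 1

lemma cnt_slice (g : Z → List ℕ) (z : List Z) {a b : ℕ} (h : a ≤ b) :
    cnt g z b = cnt g z a + ((slice z a b).flatMap g).count 1 := by
  unfold cnt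
  rw [take_slice z h, List.flatMap_append, List.count_append]

lemma cnt_mono (g : Z → List ℕ) (z : List Z) {a b : ℕ} (h : a ≤ b) : cnt g z a ≤ cnt g z b := by
  rw [cnt_slice g z h]; omega

lemma cnt_succ_le (g : Z → List ℕ) (B : ℕ) (hB : ∀ x, (g x).length ≤ B) (z : List Z) (p : ℕ) :
    cnt g z (p + 1) ≤ cnt g z p + B := by
  unfold cnt
  rw [List.take_add_one, List.flatMap_append, List.count_append]
  have : ((z[p]?.toList).flatMap g).count 1 ≤ B := by
    rcases z[p]? with _ | x
    · simp
    · simp only [Option.toList_some, List.flatMap_cons, List.flatMap_nil, List.append_nil]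
      exact le_trans List.count_le_length (hB x)
  omega

lemma cutpoint (g : Z → List ℕ) (B : ℕ) (hB : ∀ x, (g x).length ≤ B) (z : List Z) (v : ℕ)
    (hv : v ≤ cnt g z z.length) : ∃ p ≤ z.length, v ≤ cnt g z p ∧ cnt g z p ≤ v + B := by
  classical
  have hex : ∃ p, v ≤ cnt g z p := ⟨_, hv⟩
  refine ⟨Nat.find hex, Nat.find_min' hex hv, Nat.find_spec hex, ?_⟩
  rcases Nat.eq_zero_or_pos (Nat.find hex) with h0 | h0
  · rw [h0]; simp [cnt]
  · have h1 : ¬ v ≤ cnt g z (Nat.find hex - 1) := Nat.find_min hex (by omega)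
    have h2 := cnt_succ_le g B hB z (Nat.find hex - 1)
    rw [Nat.sub_add_cancel h0] at h2
    omega

/-- a letter whose `h`-image contains a letter other than `3`, `4` -/
def Impure (h : Z → List ℕ) (x : Z) : Prop := ∃ c ∈ h x, c ≠ 3 ∧ c ≠ 4

lemma impure_split {h : Z → List ℕ} {x : Z} (hx : Impure h x) :
    ∃ α c β, h x = α ++ c :: β ∧ (c ≠ 3 ∧ c ≠ 4) := by
  obtain ⟨c, hc, hne⟩ := hx
  obtain ⟨α, β, hαβ⟩ := List.append_of_mem hc
  exact ⟨α, c, β, hαβ, hne⟩

lemma of_pure {h : Z → List ℕ} (l : List Z) (hl : ∀ x ∈ l, ¬ Impure h x) :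
    ∀ c ∈ l.flatMap h, c = 3 ∨ c = 4 := by
  intro c hc
  obtain ⟨x, hx, hcx⟩ := List.mem_flatMap.1 hc
  by_contra hne
  rw [not_or] at hne
  exact hl x hx ⟨c, hcx, hne⟩

lemma perm_pure {p p' : List ℕ} (hp : ∀ c ∈ p, c = 3 ∨ c = 4) (h : p.Perm p') (X V : List ℕ)
    (i : ℕ) : net (X ++ (p ++ V)) i = net (X ++ (p' ++ V)) i := by
  have h1 := pure_append hp V
  have h2 := pure_append (p := p') (fun c hc => hp c (h.mem_iff.2 hc)) V
  refine (congr_suffix ?_ (fun i => ?_) X).2 i
  · rw [h1.1, h2.1, h.count_eq, h.count_eq]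
  · rw [h1.2, h2.2]

lemma lead_cons_ne {c : ℕ} (hc : c ≠ 3 ∧ c ≠ 4) (v : List ℕ) : lead (c :: v) = 0 := by
  rw [lead_cons, if_neg hc.1, if_neg hc.2]

/-- conclusion of the swap lemma -/
def Swappable (M : DFA Z σ) (h g : Z → List ℕ) (z : List Z) : Prop :=
  ∃ x s y s' t : List Z, z = x ++ (s ++ (y ++ (s' ++ t))) ∧ 2 ≤ (s.flatMap g).count 1 ∧
    2 ≤ (s'.flatMap g).count 1 ∧
    (∀ T, M.eval (x ++ (s' ++ (y ++ (s ++ T)))) = M.eval (x ++ (s ++ (y ++ (s' ++ T))))) ∧
    (∀ T i, net ((x ++ (s' ++ (y ++ (s ++ T)))).flatMap h) i =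
      net ((x ++ (s ++ (y ++ (s' ++ T)))).flatMap h) i)

lemma eval_swap (M : DFA Z σ) {x s y s' : List Z} (h1 : M.eval (x ++ (s ++ y)) = M.eval x)
    (h2 : M.eval (x ++ (s ++ (y ++ s'))) = M.eval (x ++ s)) (T : List Z) :
    M.eval (x ++ (s' ++ (y ++ (s ++ T)))) = M.eval (x ++ (s ++ (y ++ (s' ++ T)))) := by
  unfold DFA.eval at *
  simp only [DFA.evalFrom_of_append] at *
  -- p := state after x ; q := state after x s
  rw [h1] at h2
  rw [h1, h2, h1]

/-- five-part decomposition from four positions -/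
lemma five (z : List Z) {a b c d : ℕ} (hab : a ≤ b) (hbc : b ≤ c) (hcd : c ≤ d) :
    z = z.take a ++ (slice z a b ++ (slice z b c ++ (slice z c d ++ z.drop d))) := by
  conv_lhs => rw [← List.take_append_drop d z]
  rw [take_slice z hcd, take_slice z hbc, take_slice z hab]
  simp only [List.append_assoc]

lemma swappable_pure (M : DFA Z σ) (h g : Z → List ℕ) (z : List Z) {a b c d : ℕ}
    (hab : a ≤ b) (hbc : b ≤ c) (hcd : c ≤ d)
    (h1 : 2 ≤ ((slice z a b).flatMap g).count 1) (h2 : 2 ≤ ((slice z c d).flatMap g).count 1)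
    (e1 : M.eval (z.take a) = M.eval (z.take c)) (e2 : M.eval (z.take b) = M.eval (z.take d))
    (hp : ∀ x ∈ slice z a d, ¬ Impure h x) : Swappable M h g z := by
  have had : slice z a d = slice z a b ++ (slice z b c ++ slice z c d) := by
    have := take_slice z (hab.trans (hbc.trans hcd))
    rw [take_slice z hcd, take_slice z hbc, take_slice z hab] at this
    simp only [List.append_assoc] at this
    exact (List.append_cancel_left this).symm
  rw [had] at hp
  refine ⟨z.take a, slice z a b, slice z b c, slice z c d, z.drop d, five z hab hbc hcd, h1, h2,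
    ?_, ?_⟩
  · apply eval_swap
    · rw [← List.append_assoc, ← take_slice z hab, ← take_slice z hbc, e1]
    · rw [← take_slice z hab, ← List.append_assoc, ← List.append_assoc, ← take_slice z hab,
        ← take_slice z hbc, ← take_slice z hcd, e2]
  · intro T i
    have p1 := of_pure (h := h) (slice z a b) (fun x hx => hp x (by simp [hx]))
    have p2 := of_pure (h := h) (slice z b c) (fun x hx => hp x (by simp [hx]))
    have p3 := of_pure (h := h) (slice z c d) (fun x hx => hp x (by simp [hx]))
    have p4 : ∀ e ∈ (slice z c d).flatMap h ++ ((slice z b c).flatMap h ++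
        (slice z a b).flatMap h), e = 3 ∨ e = 4 := by
      intro e he
      rcases List.mem_append.1 he with he | he
      · exact p3 e he
      · rcases List.mem_append.1 he with he | he
        · exact p2 e he
        · exact p1 e he
    have hperm : ((slice z c d).flatMap h ++ ((slice z b c).flatMap h ++
        (slice z a b).flatMap h)).Perm ((slice z a b).flatMap h ++ ((slice z b c).flatMap h ++
        (slice z c d).flatMap h)) := by
      rw [List.perm_iff_count]
      intro e
      simp only [List.count_append]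
      omega
    have key := perm_pure p4 hperm ((z.take a).flatMap h) (T.flatMap h) i
    simp only [List.flatMap_append, List.append_assoc] at key ⊢
    exact key

lemma getElem_mem_slice_succ (z : List Z) {a b : ℕ} (hab : a ≤ b) (hb : b < z.length) :
    slice z a (b + 1) = slice z a b ++ [z[b]] := by
  have h1 := take_slice z (show a ≤ b + 1 by omega)
  have h2 : z.take (b + 1) = z.take b ++ [z[b]] := by
    rw [List.take_add_one]; simp [hb]
  rw [h2, take_slice z hab, List.append_assoc] at h1
  exact (List.append_cancel_left h1).symm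

lemma swappable_impure (M : DFA Z σ) (h g : Z → List ℕ) (z : List Z) {a b c d : ℕ}
    (hab : a < b) (hbc : b < c) (hcd : c < d) (hd : d < z.length)
    (h1 : 2 ≤ ((slice z (a + 1) (b + 1)).flatMap g).count 1)
    (h2 : 2 ≤ ((slice z (c + 1) (d + 1)).flatMap g).count 1)
    (e1 : M.eval (z.take (a + 1)) = M.eval (z.take (c + 1)))
    (e2 : M.eval (z.take (b + 1)) = M.eval (z.take (d + 1)))
    (z1 : z[a] = z[c]) (z2 : z[b] = z[d])
    (i1 : Impure h z[a]) (i2 : Impure h z[b]) : Swappable M h g z := by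
  refine ⟨z.take (a + 1), slice z (a + 1) (b + 1), slice z (b + 1) (c + 1),
    slice z (c + 1) (d + 1), z.drop (d + 1), five z (by omega) (by omega) (by omega), h1, h2,
    ?_, ?_⟩
  · apply eval_swap
    · rw [← List.append_assoc, ← take_slice z (by omega), ← take_slice z (by omega), e1]
    · rw [← take_slice z (by omega), ← List.append_assoc, ← List.append_assoc,
        ← take_slice z (by omega), ← take_slice z (by omega), ← take_slice z (by omega), e2]
  · intro T i
    obtain ⟨α, c₁, β, hα, hc₁⟩ := impure_split i1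
    obtain ⟨α', c₂, β', hα', hc₂⟩ := impure_split i2
    have s0 : z.take (a + 1) = z.take a ++ [z[a]] := by
      rw [List.take_add_one]; simp [show a < z.length by omega]
    have s1 := getElem_mem_slice_succ z (show a + 1 ≤ b by omega) (show b < z.length by omega)
    have s2 := getElem_mem_slice_succ z (show b + 1 ≤ c by omega) (show c < z.length by omega)
    have s3 := getElem_mem_slice_succ z (show c + 1 ≤ d by omega) hd
    rw [← z1] at s2
    rw [← z2] at s3
    rw [s0, s1, s2, s3]
    simp only [List.flatMap_append, List.flatMap_cons, List.flatMap_nil, List.append_nil, hα, hα']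
    have key := net_swap (X := (z.take a).flatMap h ++ α)
      (P := (c₁ :: β) ++ ((slice z (a + 1) b).flatMap h ++ α'))
      (Q := (c₂ :: β') ++ ((slice z (b + 1) c).flatMap h ++ α))
      (P' := (c₁ :: β) ++ ((slice z (c + 1) d).flatMap h ++ α'))
      (Q' := (c₂ :: β') ++ T.flatMap h)
      (lead_cons_ne hc₁ _) (lead_cons_ne hc₂ _) (lead_cons_ne hc₁ _) (lead_cons_ne hc₂ _) i
    simp only [List.append_assoc, List.cons_append] at key ⊢
    exact key.symm

lemma swap_exists [Finite Z] [Finite σ] (M : DFA Z σ) (h g : Z → List ℕ) :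
    ∃ K, ∀ z : List Z, K ≤ (z.flatMap g).count 1 → Swappable M h g z := by
  classical
  have := Fintype.ofFinite Z
  have := Fintype.ofFinite σ
  let B := Finset.univ.sup (fun z : Z => (g z).length)
  have hB : ∀ z, (g z).length ≤ B :=
    fun z => Finset.le_sup (f := fun z : Z => (g z).length) (Finset.mem_univ z)
  let D := B + 2
  let n₁ := Fintype.card (σ × σ) + 1
  let n₂ := Fintype.card (Z × σ × Z × σ) + 1
  let K := n₁ * (3 * n₂)
  refine ⟨K * D, ?_⟩
  intro z hz
  have hz' : K * D ≤ cnt g z z.length := by unfold cnt; rw [List.take_length]; exact hz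
  -- the cut positions
  have hcut : ∀ i, i ≤ K → ∃ p ≤ z.length, i * D ≤ cnt g z p ∧ cnt g z p ≤ i * D + B := by
    intro i hi
    exact cutpoint g B hB z (i * D) (le_trans (Nat.mul_le_mul_right _ hi) hz')
  choose! b hb1 hb2 hb3 using hcut
  have hblt : ∀ i j, i < j → j ≤ K → b i < b j ∧ cnt g z (b i) + 2 ≤ cnt g z (b j) := by
    intro i j hij hj
    have h1 := hb3 i (by omega)
    have h2 := hb2 j hj
    have h3 : i * D + D ≤ j * D := by
      calc i * D + D = (i + 1) * D := by ring
        _ ≤ j * D := Nat.mul_le_mul_right _ hij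
    have h4 : cnt g z (b i) + 2 ≤ cnt g z (b j) := by
      have : D = B + 2 := rfl
      omega
    refine ⟨?_, h4⟩
    by_contra hcon
    have := cnt_mono g z (show b j ≤ b i by omega)
    omega
  have hble : ∀ i j, i ≤ j → j ≤ K → b i ≤ b j := by
    intro i j hij hj
    rcases Nat.eq_or_lt_of_le hij with rfl | hlt
    · exact le_rfl
    · exact (hblt i j hlt hj).1.le
  have hsl : ∀ a c, a ≤ c → ∀ i j, i < j → j ≤ K → a ≤ b i → b j ≤ c →
      2 ≤ ((slice z a c).flatMap g).count 1 := by
    intro a c hac i j hij hj ha hc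
    have h1 := cnt_slice g z hac
    have h2 := cnt_mono g z ha
    have h3 := cnt_mono g z hc
    have h4 := (hblt i j hij hj).2
    omega
  by_cases hcase : ∀ w < 3 * n₂, ∃ q, b (n₁ * w) ≤ q ∧ q < b (n₁ * (w + 1)) ∧
      ∃ hq : q < z.length, Impure h z[q]
  · -- every window contains an impure letter
    choose! q hq1 hq2 hq3 hq4 using hcase
    let f : Fin n₂ → Z × σ × Z × σ := fun t =>
      (z[q (3 * t)]'(hq3 (3 * t) (by omega)), M.eval (z.take (q (3 * t) + 1)),
        z[q (3 * t + 2)]'(hq3 (3 * t + 2) (by omega)), M.eval (z.take (q (3 * t + 2) + 1)))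
    have hcard : Fintype.card (Z × σ × Z × σ) < Fintype.card (Fin n₂) := by
      rw [Fintype.card_fin]; omega
    obtain ⟨t, t', hne, heq⟩ := Fintype.exists_ne_map_eq_of_card_lt f hcard
    wlog hlt : t < t' generalizing t t'
    · exact this t' t hne.symm heq.symm (lt_of_le_of_ne (not_lt.1 hlt) hne.symm)
    have hlt' : (t : ℕ) + 1 ≤ t' := hlt
    have ht' : (t' : ℕ) + 1 ≤ n₂ := t'.2
    simp only [f, Prod.mk.injEq] at heq
    obtain ⟨E1, E2, E3, E4⟩ := heq
    have hK : ∀ w, w ≤ 3 * n₂ → n₁ * w ≤ K := fun w hw => Nat.mul_le_mul_left _ hw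
    have hn₁ : 1 ≤ n₁ := by omega
    have hmul : ∀ u v, u < v → n₁ * u < n₁ * v := fun u v huv => Nat.mul_lt_mul_of_pos_left huv hn₁
    have hmul' : ∀ u v, u ≤ v → n₁ * u ≤ n₁ * v := fun u v huv => Nat.mul_le_mul_left _ huv
    -- positions
    have w1 : q (3 * t) < b (n₁ * (3 * t + 1)) := hq2 (3 * t) (by omega)
    have w2 : b (n₁ * (3 * t + 2)) ≤ q (3 * t + 2) := hq1 (3 * t + 2) (by omega)
    have w3 : q (3 * t + 2) < b (n₁ * (3 * t + 3)) := hq2 (3 * t + 2) (by omega)
    have w4 : b (n₁ * (3 * t')) ≤ q (3 * t') := hq1 (3 * t') (by omega)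
    have w5 : q (3 * t') < b (n₁ * (3 * t' + 1)) := hq2 (3 * t') (by omega)
    have w6 : b (n₁ * (3 * t' + 2)) ≤ q (3 * t' + 2) := hq1 (3 * t' + 2) (by omega)
    have u1 : b (n₁ * (3 * t + 1)) < b (n₁ * (3 * t + 2)) :=
      (hblt _ _ (hmul _ _ (by omega)) (hK _ (by omega))).1
    have u2 : b (n₁ * (3 * t + 3)) ≤ b (n₁ * (3 * t')) :=
      hble _ _ (hmul' _ _ (by omega)) (hK _ (by omega))
    have u3 : b (n₁ * (3 * t' + 1)) < b (n₁ * (3 * t' + 2)) :=
      (hblt _ _ (hmul _ _ (by omega)) (hK _ (by omega))).1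
    refine swappable_impure M h g z (a := q (3 * t)) (b := q (3 * t + 2)) (c := q (3 * t'))
      (d := q (3 * t' + 2)) (by omega) (by omega) (by omega) (hq3 _ (by omega)) ?_ ?_ E2 E4 E1 E3
      (hq4 _ (by omega)) (hq4 _ (by omega))
    · exact hsl _ _ (by omega) (n₁ * (3 * t + 1)) (n₁ * (3 * t + 2)) (hmul _ _ (by omega))
        (hK _ (by omega)) (by omega) (by omega)
    · exact hsl _ _ (by omega) (n₁ * (3 * t' + 1)) (n₁ * (3 * t' + 2)) (hmul _ _ (by omega))
        (hK _ (by omega)) (by omega) (by omega)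
  · -- some window is pure
    push Not at hcase
    obtain ⟨w, hw, hpure⟩ := hcase
    let f : Fin n₁ → σ × σ := fun t =>
      (M.eval (z.take (b (n₁ * w + t))), M.eval (z.take (b (n₁ * w + t + 1))))
    have hcard : Fintype.card (σ × σ) < Fintype.card (Fin n₁) := by
      rw [Fintype.card_fin]; omega
    obtain ⟨t, t', hne, heq⟩ := Fintype.exists_ne_map_eq_of_card_lt f hcard
    wlog hlt : t < t' generalizing t t'
    · exact this t' t hne.symm heq.symm (lt_of_le_of_ne (not_lt.1 hlt) hne.symm)
    have hlt' : (t : ℕ) + 1 ≤ t' := hlt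
    have ht' : (t' : ℕ) + 1 ≤ n₁ := t'.2
    simp only [f, Prod.mk.injEq] at heq
    obtain ⟨E1, E2⟩ := heq
    have hKw : n₁ * w + n₁ ≤ K := by
      calc n₁ * w + n₁ = n₁ * (w + 1) := by ring
        _ ≤ K := Nat.mul_le_mul_left _ hw
    have v1 : b (n₁ * w + t) ≤ b (n₁ * w + t + 1) := hble _ _ (by omega) (by omega)
    have v2 : b (n₁ * w + t + 1) ≤ b (n₁ * w + t') := hble _ _ (by omega) (by omega)
    have v3 : b (n₁ * w + t') ≤ b (n₁ * w + t' + 1) := hble _ _ (by omega) (by omega)
    refine swappable_pure M h g z v1 v2 v3 ?_ ?_ E1 E2 ?_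
    · exact hsl _ _ v1 (n₁ * w + t) (n₁ * w + t + 1) (by omega) (by omega) le_rfl le_rfl
    · exact hsl _ _ v3 (n₁ * w + t') (n₁ * w + t' + 1) (by omega) (by omega) le_rfl le_rfl
    · intro x hx
      -- x = z[q] for some q in the window
      obtain ⟨k, hk, rfl⟩ := List.getElem_of_mem hx
      have hlen : k + b (n₁ * w + t) < b (n₁ * w + t' + 1) ∧ k + b (n₁ * w + t) < z.length := by
        unfold slice at hk
        rw [List.length_drop, List.length_take] at hk
        omega
      have heq : (slice z (b (n₁ * w + t)) (b (n₁ * w + t' + 1)))[k] =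
          z[b (n₁ * w + t) + k]'(by omega) := by
        simp only [slice, List.getElem_drop, List.getElem_take]
      rw [heq]
      have g1 : b (n₁ * w) ≤ b (n₁ * w + t) := hble _ _ (by omega) (by omega)
      have g2 : b (n₁ * w + t' + 1) ≤ b (n₁ * (w + 1)) := by
        apply hble
        · rw [Nat.mul_add, Nat.mul_one]; omega
        · rw [Nat.mul_add, Nat.mul_one]; omega
      exact hpure (b (n₁ * w + t) + k) (by omega) (by omega) (by omega)

end swap

/-! ### Marked palindromes are not in the cone -/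

lemma perm_swap {X : Type} (x s y s' T : List X) :
    (x ++ (s' ++ (y ++ (s ++ T)))).Perm (x ++ (s ++ (y ++ (s' ++ T)))) := by
  classical
  rw [List.perm_iff_count]
  intro a
  simp only [List.count_append]
  omega

lemma Pal_not_mem (𝒩 : Set (Multiset (ℕ × ℕ))) : Pal ∉ coneG 𝒩 := by
  rintro ⟨Z, _, h, g, R, ⟨σ, _, M, rfl⟩, hPal⟩
  classical
  have := Fintype.ofFinite Z
  obtain ⟨K, hK⟩ := swap_exists M h g
  let B := Finset.univ.sup (fun z : Z => (g z).length)
  have hB : ∀ z, (g z).length ≤ B :=
    fun z => Finset.le_sup (f := fun z : Z => (g z).length) (Finset.mem_univ z)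
  let N := K + B + 1
  have hw : W 0 N ++ 2 :: (W 0 N).reverse ∈ Pal := ⟨W 0 N, W_lt N 0, rfl⟩
  rw [hPal] at hw
  obtain ⟨z, hzR, hzG, hzg⟩ := hw
  have hcntz : K ≤ cnt g z z.length := by
    unfold cnt
    rw [List.take_length, hzg, List.count_append, count_W]; omega
  obtain ⟨p, hp, hp1, hp2⟩ := cutpoint g B hB z K hcntz
  have hsplit : (z.take p).flatMap g ++ (z.drop p).flatMap g = W 0 N ++ 2 :: (W 0 N).reverse := by
    rw [← List.flatMap_append, List.take_append_drop, hzg]
  have hpre : (z.take p).flatMap g <+: W 0 N := by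
    rcases le_total ((z.take p).flatMap g).length (W 0 N).length with hl | hl
    · exact List.prefix_of_prefix_length_le ⟨_, hsplit⟩ ⟨_, rfl⟩ hl
    · exfalso
      have : W 0 N <+: (z.take p).flatMap g :=
        List.prefix_of_prefix_length_le ⟨_, rfl⟩ ⟨_, hsplit⟩ hl
      have h1 := this.sublist.count_le 1
      rw [count_W] at h1
      unfold cnt at hp2
      omega
  obtain ⟨w', hw'⟩ := hpre
  have hrest : (z.drop p).flatMap g = w' ++ 2 :: (W 0 N).reverse := by
    rw [← hw', List.append_assoc] at hsplit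
    have := List.append_cancel_left hsplit
    rw [this, hw']
  obtain ⟨x, s, y, s', t, hz, hs, hs', hM, hnet⟩ := hK (z.take p) hp1
  -- the swapped word
  let z₁ := x ++ (s ++ (y ++ (s' ++ (t ++ z.drop p))))
  let z₂ := x ++ (s' ++ (y ++ (s ++ (t ++ z.drop p))))
  have hz₁ : z = z₁ := by
    conv_lhs => rw [← List.take_append_drop p z, hz]
    simp only [z₁, List.append_assoc]
  have hperm : z₂.Perm z₁ := perm_swap x s y s' _
  have hmem : z₂.flatMap g ∈ Pal := by
    rw [hPal]
    refine ⟨z₂, ?_, ?_, rfl⟩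
    · change M.eval z₂ ∈ M.accept
      rw [show M.eval z₂ = M.eval z₁ from hM _, ← hz₁]; exact hzR
    · refine ⟨?_, ?_⟩
      · intro c hc
        apply hzG.1 c
        rw [hz₁]
        exact (hperm.flatMap_right h).subset hc
      · intro i
        rw [show net (z₂.flatMap h) i = net (z₁.flatMap h) i from hnet _ i, ← hz₁]
        exact hzG.2 i
  obtain ⟨v, hv, hveq⟩ := hmem
  have hW : W 0 N = x.flatMap g ++ (s.flatMap g ++ (y.flatMap g ++ (s'.flatMap g ++
      (t.flatMap g ++ w')))) := by
    rw [← hw', hz]; simp only [List.flatMap_append, List.append_assoc]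
  have hz₂g : z₂.flatMap g = (x.flatMap g ++ (s'.flatMap g ++ (y.flatMap g ++ (s.flatMap g ++
      (t.flatMap g ++ w'))))) ++ 2 :: (W 0 N).reverse := by
    simp only [z₂, List.flatMap_append, List.append_assoc, hrest]
  rw [hz₂g] at hveq
  have h2a : (2 : ℕ) ∉ v := fun hm => by have := hv 2 hm; omega
  have h2b : (2 : ℕ) ∉ v.reverse := fun hm => h2a (List.mem_reverse.1 hm)
  have h2c : (2 : ℕ) ∉ (W 0 N).reverse := fun hm => by
    have := W_lt N 0 2 (List.mem_reverse.1 hm); omega
  have h2d : (2 : ℕ) ∉ (x.flatMap g ++ (s'.flatMap g ++ (y.flatMap g ++ (s.flatMap g ++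
      (t.flatMap g ++ w'))))) := by
    intro hm
    have : (2 : ℕ) ∈ W 0 N := by
      rw [hW]; exact (perm_swap _ _ _ _ _).subset hm
    have := W_lt N 0 2 this; omega
  obtain ⟨k1, _, k3⟩ := (List.append_cons_inj_of_notMem h2d h2c).1 hveq
  have hWv : W 0 N = v := List.reverse_injective k3
  exact swap_contra N _ _ _ _ _ hW (by rw [hWv]; exact k1.symm) hs hs'

end Pool.Agent.KS6_22.ED.Base
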