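import Pool.Agent.KS6_22.ED.Comm

/-!
Bounded languages in the cone.
-/

set_option autoImplicit false

open List

namespace Pool.Agent.KS6_22.ED.Bnd

open Pool.Agent.KS6_22.ED.Base

/-- accepts the sorted words -/
def srtDFA (k : ℕ) : DFA (Fin k) (Option (Fin (k + 1))) where
  step q c := match q with
    | none => none
    | some p => if p.val ≤ c.val then some c.castSucc else none
  start := some 0
  accept := {q | q ≠ none}

theorem srt_none (k : ℕ) (z : List (Fin k)) : (srtDFA k).evalFrom none z = none := by
  induction z with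
  | nil => rfl
  | cons c z ih => rw [DFA.evalFrom_cons]; exact ih

theorem srt_some (k : ℕ) (z : List (Fin k)) : ∀ p : Fin (k + 1),
    ((srtDFA k).evalFrom (some p) z ≠ none ↔
      z.Pairwise (· ≤ ·) ∧ ∀ c ∈ z, p.val ≤ c.val) := by
  induction z with
  | nil => intro p; simp
  | cons c z ih =>
    intro p
    rw [DFA.evalFrom_cons]
    by_cases hc : p.val ≤ c.val
    · have e : (srtDFA k).step (some p) c = some c.castSucc := by
        simp only [srtDFA]
        rw [if_pos hc]
      rw [e, ih, List.pairwise_cons]
      constructor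
      · rintro ⟨h1, h2⟩
        refine ⟨⟨fun d hd => Fin.le_def.2 (h2 d hd), h1⟩, fun d hd => ?_⟩
        rcases List.mem_cons.1 hd with rfl | hd
        · exact hc
        · exact hc.trans (h2 d hd)
      · rintro ⟨⟨h1, h2⟩, _⟩
        exact ⟨h2, fun d hd => Fin.le_def.1 (h1 d hd)⟩
    · have e : (srtDFA k).step (some p) c = none := by
        simp only [srtDFA]
        rw [if_neg hc]
      rw [e, srt_none]
      constructor
      · intro h; exact absurd rfl h
      · rintro ⟨_, h⟩
        exact absurd (h c (by simp)) hc

theorem mem_srt (k : ℕ) (z : List (Fin k)) : z ∈ (srtDFA k).accepts ↔ z.Pairwise (· ≤ ·) := by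
  show (srtDFA k).evalFrom (some 0) z ≠ none ↔ _
  rw [srt_some]
  simp

/-- the sorted word with given numbers of letters -/
def can {k : ℕ} (n : Fin k → ℕ) : List (Fin k) :=
  (List.finRange k).flatMap fun j => replicate (n j) j

theorem can_count {k : ℕ} (n : Fin k → ℕ) (j : Fin k) : (can n).count j = n j := by
  unfold can
  rw [List.count_flatMap, ← Fin.sum_univ_def]
  simp [List.count_replicate]

theorem can_sorted {k : ℕ} (n : Fin k → ℕ) : (can n).Pairwise (· ≤ ·) := by
  unfold can
  rw [List.pairwise_flatMap]
  refine ⟨fun a _ => ?_, ?_⟩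
  · exact List.pairwise_replicate.2 (Or.inr le_rfl)
  · refine (List.pairwise_lt_finRange k).imp ?_
    intro a b hab x hx y hy
    rw [List.eq_of_mem_replicate hx, List.eq_of_mem_replicate hy]
    exact hab.le

theorem eq_can {k : ℕ} (z : List (Fin k)) (hz : z.Pairwise (· ≤ ·)) :
    z = can fun j => z.count j := by
  have hp : z.Perm (can fun j => z.count j) := by
    rw [List.perm_iff_count]
    intro j
    rw [can_count]
  exact hp.eq_of_pairwise' hz (can_sorted _)

/-- the product of powers -/
def word {k : ℕ} (ws : Fin k → List ℕ) (n : Fin k → ℕ) : List ℕ :=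
  (List.finRange k).flatMap fun j => (List.replicate (n j) (ws j)).flatten

theorem can_flatMap {k : ℕ} (ws : Fin k → List ℕ) (n : Fin k → ℕ) :
    (can n).flatMap ws = word ws n := by
  unfold can word
  rw [List.flatMap_assoc]
  congr 1
  funext j
  rw [List.flatMap_replicate]

/-- the commutative language of a bounded language -/
def cl (k : ℕ) (ws : Fin k → List ℕ) (K : Language ℕ) : Language ℕ :=
  {v | (∀ c ∈ v, c < k) ∧ word ws (fun j => v.count j.val) ∈ K}

theorem cl_comm (k : ℕ) (ws : Fin k → List ℕ) (K : Language ℕ) (u v : List ℕ) (h : u.Perm v)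
    (hu : u ∈ cl k ws K) : v ∈ cl k ws K := by
  refine ⟨fun c hc => hu.1 c (h.mem_iff.2 hc), ?_⟩
  have : (fun j : Fin k => v.count j.val) = fun j => u.count j.val := by
    funext j
    exact (h.count_eq _).symm
  rw [this]
  exact hu.2

theorem mem_of_cl (k : ℕ) (ws : Fin k → List ℕ) (K : Language ℕ)
    (hK : ∀ u ∈ K, ∃ n : Fin k → ℕ, u = word ws n) (F : Set (Language ℕ)) (hF : IsRationalCone F)
    (h : cl k ws K ∈ F) : K ∈ F := by
  let h' : Fin k → List ℕ := fun c => [c.val]
  have hh : ∀ z : List (Fin k), z.flatMap h' = z.map Fin.val := by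
    intro z
    induction z with
    | nil => rfl
    | cons a z ih => rw [List.flatMap_cons, ih]; rfl
  have hc : ∀ (z : List (Fin k)) (j : Fin k), (z.map Fin.val).count j.val = z.count j := by
    intro z j
    exact List.count_map_of_injective z Fin.val Fin.val_injective j
  have e : K = transduce h' ws (srtDFA k).accepts (cl k ws K) := by
    apply Set.ext
    intro w
    constructor
    · intro hw
      obtain ⟨n, rfl⟩ := hK w hw
      refine ⟨can n, (mem_srt k _).2 (can_sorted n), ?_, can_flatMap ws n⟩
      rw [hh]
      refine ⟨fun c hc => ?_, ?_⟩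
      · obtain ⟨d, _, rfl⟩ := List.mem_map.1 hc
        exact d.2
      · simp only [hc, can_count]
        exact hw
    · rintro ⟨z, hz, hzc, rfl⟩
      rw [mem_srt] at hz
      rw [hh] at hzc
      have h1 := hzc.2
      simp only [hc] at h1
      rw [eq_can z hz, can_flatMap]
      exact h1
  rw [e]
  exact hF.2 _ h (Fin k) h' ws _ ⟨_, inferInstance, _, rfl⟩

end Pool.Agent.KS6_22.ED.Bnd
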