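import Pool.Agent.KS6_22.ED.Base

/-!
Commutative languages in the cone.
-/

set_option autoImplicit false

open List

namespace Pool.Agent.KS6_22.ED.Comm

open Pool.Agent.KS6_22.ED.Base

/-- the name of a block -/
def nm (c : ℕ) : ℕ × ℕ := (5, c)

theorem nm_injective : Function.Injective nm := fun a b h => (Prod.ext_iff.1 h).2

/-- the set of multisets which belongs to a sequence of languages -/
def NN (C : ℕ → Language ℕ) : Set (Multiset (ℕ × ℕ)) :=
  {m | m.count (0, 0) = m.count (1, 0) ∧ (m.filter (fun p => p.1 = 5) = 0 ∨
    ∃ i, ∃ w ∈ C i, (((w.map (· + 1) ++ replicate (i + 1) 0).map nm : List (ℕ × ℕ)) :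
      Multiset (ℕ × ℕ)) = m.filter (fun p => p.1 = 5))}

theorem good (C : ℕ → Language ℕ) : Good (NN C) := by
  refine ⟨⟨by simp, Or.inl (by simp)⟩, fun n m => ⟨fun h => ?_, fun h => ?_⟩⟩
  · have := h.1
    simp [Multiset.count_replicate] at this
    omega
  · subst h
    refine ⟨by simp [Multiset.count_replicate], Or.inl ?_⟩
    rw [Multiset.filter_eq_nil]
    intro a ha
    rcases Multiset.mem_add.1 ha with ha | ha
    · rw [Multiset.eq_of_mem_replicate ha]; simp
    · rw [Multiset.eq_of_mem_replicate ha]; simp

/-- the word with blocks of given names -/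
def en (as : List ℕ) : List ℕ := as.flatMap fun a => 5 :: replicate a 4

theorem lead_en (as : List ℕ) : lead (en as) = 0 := by
  cases as with
  | nil => rfl
  | cons a as =>
    show lead (5 :: (replicate a 4 ++ en as)) = 0
    rw [lead_cons, if_neg (by omega), if_neg (by omega)]

theorem net_en (as : List ℕ) (i : ℕ) :
    net (en as) i = if i = 0 then ((as.map nm : List (ℕ × ℕ)) : Multiset (ℕ × ℕ)) else 0 := by
  induction as with
  | nil => simp [en]
  | cons a as ih =>
    have e : en (a :: as) = 5 :: (replicate a 4 ++ en as) := rfl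
    have hp := pure_append (p := replicate a 4)
      (fun c hc => Or.inr (List.eq_of_mem_replicate hc)) (en as)
    rw [List.count_replicate_self, List.count_replicate, lead_en, add_zero] at hp
    rw [e, net_cons, hp.2, hp.1, ih, if_neg (show ¬ (5 = 2 ∨ 5 = 3 ∨ 5 = 4) by omega)]
    by_cases hi : i = 0
    · subst hi
      simp only [if_true]
      rw [List.map_cons, ← Multiset.cons_coe, ← Multiset.singleton_add, add_comm]
      rfl
    · rw [if_neg hi, if_neg hi]
      have : ¬ ((if (4 : ℕ) == 3 then a else 0) = i) := by
        simp; omega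
      rw [if_neg this, add_zero]

theorem en_mem (C : ℕ → Language ℕ) (as : List ℕ) :
    en as ∈ G (NN C) ↔ ((as.map nm : List (ℕ × ℕ)) : Multiset (ℕ × ℕ)) ∈ NN C := by
  constructor
  · intro h1
    have := h1.2 0
    rwa [net_en, if_pos rfl] at this
  · intro h1
    refine ⟨fun c hc => ?_, fun j => ?_⟩
    · obtain ⟨a, _, ha⟩ := List.mem_flatMap.1 hc
      rcases List.mem_cons.1 ha with rfl | ha
      · omega
      · rw [List.eq_of_mem_replicate ha]; omega
    · rw [net_en]
      split_ifs
      · exact h1
      · exact (good C).zero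

theorem filter_nm (as : List ℕ) :
    ((as.map nm : List (ℕ × ℕ)) : Multiset (ℕ × ℕ)).filter (fun p => p.1 = 5) =
      ((as.map nm : List (ℕ × ℕ)) : Multiset (ℕ × ℕ)) := by
  rw [Multiset.filter_eq_self]
  intro a ha
  rw [Multiset.mem_coe] at ha
  obtain ⟨d, _, rfl⟩ := List.mem_map.1 ha
  rfl

theorem mem_NN_iff (C : ℕ → Language ℕ) (as : List ℕ) :
    ((as.map nm : List (ℕ × ℕ)) : Multiset (ℕ × ℕ)) ∈ NN C ↔
      as = [] ∨ ∃ i, ∃ w ∈ C i, (w.map (· + 1) ++ replicate (i + 1) 0).Perm as := by
  have h0 : ∀ b : ℕ, b ≠ 5 → Multiset.count (b, 0)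
      ((as.map nm : List (ℕ × ℕ)) : Multiset (ℕ × ℕ)) = 0 := by
    intro b hb
    rw [Multiset.count_eq_zero]
    intro hm
    rw [← filter_nm, Multiset.mem_filter] at hm
    exact hb hm.2
  have h1 : ∀ w : List ℕ, (((w.map nm : List (ℕ × ℕ)) : Multiset (ℕ × ℕ)) =
      ((as.map nm : List (ℕ × ℕ)) : Multiset (ℕ × ℕ))) ↔ w.Perm as := by
    intro w
    rw [Multiset.coe_eq_coe]
    exact List.map_perm_map_iff nm_injective
  unfold NN
  rw [Set.mem_ofPred_eq, filter_nm]
  constructor
  · rintro ⟨_, h | ⟨i, w, hw, h⟩⟩
    · left
      have := congrArg Multiset.card h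
      simpa using this
    · exact Or.inr ⟨i, w, hw, (h1 _).1 h⟩
  · rintro (h | ⟨i, w, hw, h⟩)
    · subst h
      exact ⟨by simp, Or.inl rfl⟩
    · exact ⟨(h0 0 (by omega)).trans (h0 1 (by omega)).symm, Or.inr ⟨i, w, hw, (h1 _).2 h⟩⟩

/-- counts the letters `k` -/
def cntDFA (k i : ℕ) : DFA (Fin (k + 1)) (Fin (i + 3)) where
  step q c := if c = Fin.last k then ⟨min (q.val + 1) (i + 2), by omega⟩ else q
  start := 0
  accept := {q | q.val = i + 1}

theorem cntDFA_eval (k i : ℕ) (z : List (Fin (k + 1))) : ∀ q : Fin (i + 3),
    ((cntDFA k i).evalFrom q z).val = min (q.val + z.count (Fin.last k)) (i + 2) := by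
  induction z with
  | nil =>
    intro q
    have := q.2
    simp only [DFA.evalFrom_nil, List.count_nil]
    omega
  | cons c z ih =>
    intro q
    rw [DFA.evalFrom_cons, ih]
    by_cases hc : c = Fin.last k
    · subst hc
      simp only [cntDFA, if_true, List.count_cons_self]
      omega
    · simp only [cntDFA, if_neg hc]
      rw [List.count_cons_of_ne hc]

theorem mem_cone (C : ℕ → Language ℕ)
    (hC : ∀ i, ∀ u v : List ℕ, u.Perm v → u ∈ C i → v ∈ C i) (i k : ℕ)
    (hk : ∀ w ∈ C i, ∀ c ∈ w, c < k) : C i ∈ coneG (NN C) := by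
  let name : Fin (k + 1) → ℕ := fun c => if c.val < k then c.val + 1 else 0
  let h : Fin (k + 1) → List ℕ := fun c => 5 :: replicate (name c) 4
  let g : Fin (k + 1) → List ℕ := fun c => if c.val < k then [c.val] else []
  have hh : ∀ z : List (Fin (k + 1)), z.flatMap h = en (z.map name) := by
    intro z
    induction z with
    | nil => rfl
    | cons a z ih =>
      rw [List.flatMap_cons, ih]
      rfl
  have hR : ∀ z : List (Fin (k + 1)), z ∈ (cntDFA k i).accepts ↔
      z.count (Fin.last k) = i + 1 := by
    intro z
    show ((cntDFA k i).evalFrom (cntDFA k i).start z).val = i + 1 ↔ _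
    rw [cntDFA_eval]
    have : (cntDFA k i).start.val = 0 := rfl
    omega
  have hname : name (Fin.last k) = 0 := by simp [name]
  refine ⟨Fin (k + 1), inferInstance, h, g, (cntDFA k i).accepts, ⟨_, inferInstance, _, rfl⟩, ?_⟩
  apply Set.ext
  intro w
  constructor
  · intro hw
    let f : ℕ → Fin (k + 1) := fun c => ⟨min c k, by omega⟩
    have hlt := hk w hw
    have e1 : ∀ w : List ℕ, (∀ c ∈ w, c < k) → (w.map f).count (Fin.last k) = 0 := by
      intro w hw
      rw [List.count_eq_zero]
      intro hm
      obtain ⟨c, hc, hc'⟩ := List.mem_map.1 hm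
      have h1 := hw c hc
      have h2 := congrArg Fin.val hc'
      simp only [f, Fin.val_last] at h2
      omega
    have e2 : ∀ w : List ℕ, (∀ c ∈ w, c < k) → (w.map f).map name = w.map (· + 1) := by
      intro w hw
      rw [List.map_map]
      refine List.map_congr_left fun c hc => ?_
      have h1 := hw c hc
      have h2 : min c k = c := by omega
      simp only [f, name, Function.comp, h2, if_pos h1]
    have e3 : ∀ w : List ℕ, (∀ c ∈ w, c < k) → (w.map f).flatMap g = w := by
      intro w
      induction w with
      | nil => intro _; rfl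
      | cons c w ih =>
        intro hw
        have h1 := hw c (by simp)
        rw [List.map_cons, List.flatMap_cons, ih fun d hd => hw d (by simp [hd])]
        have h2 : min c k = c := by omega
        simp only [g, f, h2, if_pos h1]
        rfl
    have e4 : ∀ n : ℕ, (replicate n (Fin.last k)).flatMap g = [] := by
      intro n
      induction n with
      | zero => rfl
      | succ n ih => rw [replicate_succ, List.flatMap_cons, ih]; simp [g]
    refine ⟨w.map f ++ replicate (i + 1) (Fin.last k), ?_, ?_, ?_⟩
    · rw [hR, List.count_append, e1 w hlt, List.count_replicate_self, zero_add]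
    · rw [hh, en_mem, mem_NN_iff]
      refine Or.inr ⟨i, w, hw, ?_⟩
      rw [List.map_append, e2 w hlt, List.map_replicate, hname]
    · rw [List.flatMap_append, e3 w hlt, e4, List.append_nil]
  · rintro ⟨z, hz, hzG, rfl⟩
    rw [hR] at hz
    rw [hh, en_mem, mem_NN_iff] at hzG
    have hcz : ∀ z : List (Fin (k + 1)), (z.map name).count 0 = z.count (Fin.last k) := by
      intro z
      induction z with
      | nil => rfl
      | cons c z ih =>
        rw [List.map_cons, List.count_cons, List.count_cons, ih]
        congr 1
        by_cases hc : c = Fin.last k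
        · subst hc; simp [hname]
        · have h1 : c.val < k := by
            have h2 := c.2
            have h3 : c.val ≠ k := fun h => hc (Fin.ext h)
            omega
          simp [name, hc, h1]
    rcases hzG with h0 | ⟨j, w, hw, hp⟩
    · have h1 : z = [] := by simpa using h0
      rw [h1] at hz
      simp at hz
    · have hcw : (w.map (· + 1)).count 0 = 0 := by
        rw [List.count_eq_zero]
        intro hm
        obtain ⟨c, hc, hc'⟩ := List.mem_map.1 hm
        omega
      have hj : j = i := by
        have h1 := hp.count_eq 0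
        rw [hcz, hz, List.count_append, hcw, List.count_replicate_self] at h1
        omega
      subst hj
      let φ : ℕ → List ℕ := fun c => if c = 0 then [] else [c - 1]
      have hp2 := hp.flatMap_right φ
      have e1 : ∀ w : List ℕ, (w.map (· + 1)).flatMap φ = w := by
        intro w
        induction w with
        | nil => rfl
        | cons c w ih =>
          rw [List.map_cons, List.flatMap_cons, ih]
          simp [φ]
      have e2 : ∀ n : ℕ, (replicate n 0).flatMap φ = [] := by
        intro n
        induction n with
        | zero => rfl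
        | succ n ih => rw [replicate_succ, List.flatMap_cons, ih]; simp [φ]
      have e3 : ∀ z : List (Fin (k + 1)), (z.map name).flatMap φ = z.flatMap g := by
        intro z
        induction z with
        | nil => rfl
        | cons c z ih =>
          rw [List.map_cons, List.flatMap_cons, List.flatMap_cons, ih]
          congr 1
          by_cases hc : c.val < k
          · simp [φ, g, name, hc]
          · simp [φ, g, name, hc]
      rw [List.flatMap_append, e1 w, e2, List.append_nil, e3] at hp2
      exact hC j w _ hp2 hw

end Pool.Agent.KS6_22.ED.Comm
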