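import Pool.Agent.KS6_22.ED.Comm

/-!
Union of languages in the cone.
-/

set_option autoImplicit false

open List

namespace Pool.Agent.KS6_22.ED.Un

open Pool.Agent.KS6_22.ED.Base

variable {Z Z' σ : Type}

/-- runs `M` on the letters of `Z'` which come from `Z` -/
def embDFA (pr : Z' → Option Z) (M : DFA Z σ) : DFA Z' (Option σ) where
  step q c := q.bind fun q => (pr c).map (M.step q)
  start := some M.start
  accept := {q | ∃ p ∈ M.accept, q = some p}

theorem emb_none (pr : Z' → Option Z) (M : DFA Z σ) (z : List Z') :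
    (embDFA pr M).evalFrom none z = none := by
  induction z with
  | nil => rfl
  | cons c z ih => rw [DFA.evalFrom_cons]; exact ih

theorem emb_map (pr : Z' → Option Z) (M : DFA Z σ) (f : Z → Z') (h1 : ∀ a, pr (f a) = some a)
    (z : List Z) : ∀ q, (embDFA pr M).evalFrom (some q) (z.map f) = some (M.evalFrom q z) := by
  induction z with
  | nil => intro q; rfl
  | cons c z ih =>
    intro q
    rw [List.map_cons, DFA.evalFrom_cons, DFA.evalFrom_cons, ← ih]
    congr 1
    simp [embDFA, h1]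

theorem emb_inv (pr : Z' → Option Z) (M : DFA Z σ) (f : Z → Z')
    (h2 : ∀ c a, pr c = some a → c = f a) (z' : List Z') : ∀ q p,
    (embDFA pr M).evalFrom (some q) z' = some p → ∃ z, z' = z.map f ∧ M.evalFrom q z = p := by
  induction z' with
  | nil =>
    intro q p h
    exact ⟨[], rfl, Option.some_injective _ h⟩
  | cons c z' ih =>
    intro q p h
    rw [DFA.evalFrom_cons] at h
    rcases hc : pr c with _ | a
    · have e : (embDFA pr M).step (some q) c = none := by simp [embDFA, hc]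
      rw [e, emb_none] at h
      exact absurd h (by simp)
    · have e : (embDFA pr M).step (some q) c = some (M.step q a) := by simp [embDFA, hc]
      rw [e] at h
      obtain ⟨z, rfl, hz⟩ := ih _ _ h
      exact ⟨a :: z, by rw [List.map_cons, h2 c a hc], hz⟩

theorem emb_accepts (pr : Z' → Option Z) (M : DFA Z σ) (f : Z → Z')
    (h1 : ∀ a, pr (f a) = some a) (h2 : ∀ c a, pr c = some a → c = f a) (z' : List Z') :
    z' ∈ (embDFA pr M).accepts ↔ ∃ z ∈ M.accepts, z' = z.map f := by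
  constructor
  · rintro ⟨p, hp, h⟩
    obtain ⟨z, rfl, hz⟩ := emb_inv pr M f h2 z' _ _ h
    refine ⟨z, ?_, rfl⟩
    show M.evalFrom M.start z ∈ M.accept
    rw [hz]; exact hp
  · rintro ⟨z, hz, rfl⟩
    exact ⟨_, hz, emb_map pr M f h1 z _⟩

theorem union {N : Set (Multiset (ℕ × ℕ))} (L₁ L₂ : Language ℕ) (H1 : L₁ ∈ coneG N)
    (H2 : L₂ ∈ coneG N) : L₁ + L₂ ∈ coneG N := by
  obtain ⟨Z₁, _, h₁, g₁, R₁, ⟨σ₁, _, M₁, rfl⟩, rfl⟩ := H1
  obtain ⟨Z₂, _, h₂, g₂, R₂, ⟨σ₂, _, M₂, rfl⟩, rfl⟩ := H2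
  let p1 : Z₁ ⊕ Z₂ → Option Z₁ := Sum.elim some fun _ => none
  let p2 : Z₁ ⊕ Z₂ → Option Z₂ := Sum.elim (fun _ => none) some
  have k1 : ∀ z, z ∈ (embDFA p1 M₁).accepts ↔ ∃ y ∈ M₁.accepts, z = y.map Sum.inl :=
    emb_accepts p1 M₁ Sum.inl (fun a => rfl) (by
      rintro (c | c) a h
      · have : some c = some a := h
        rw [Option.some_injective _ this]
      · exact absurd h (by simp [p1]))
  have k2 : ∀ z, z ∈ (embDFA p2 M₂).accepts ↔ ∃ y ∈ M₂.accepts, z = y.map Sum.inr :=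
    emb_accepts p2 M₂ Sum.inr (fun a => rfl) (by
      rintro (c | c) a h
      · exact absurd h (by simp [p2])
      · have : some c = some a := h
        rw [Option.some_injective _ this])
  refine ⟨Z₁ ⊕ Z₂, inferInstance, Sum.elim h₁ h₂, Sum.elim g₁ g₂,
    (embDFA p1 M₁).accepts + (embDFA p2 M₂).accepts,
    Language.IsRegular.add ⟨_, inferInstance, _, rfl⟩ ⟨_, inferInstance, _, rfl⟩, ?_⟩
  apply Set.ext
  intro w
  constructor
  · rintro (⟨z, hz, h, rfl⟩ | ⟨z, hz, h, rfl⟩)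
    · exact ⟨z.map Sum.inl, Or.inl ((k1 _).2 ⟨z, hz, rfl⟩), by rw [List.flatMap_map]; exact h,
        by rw [List.flatMap_map]; rfl⟩
    · exact ⟨z.map Sum.inr, Or.inr ((k2 _).2 ⟨z, hz, rfl⟩), by rw [List.flatMap_map]; exact h,
        by rw [List.flatMap_map]; rfl⟩
  · rintro ⟨z, hz | hz, h, rfl⟩
    · obtain ⟨y, hy, rfl⟩ := (k1 z).1 hz
      rw [List.flatMap_map] at h ⊢
      exact Or.inl ⟨y, hy, h, rfl⟩
    · obtain ⟨y, hy, rfl⟩ := (k2 z).1 hz
      rw [List.flatMap_map] at h ⊢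
      exact Or.inr ⟨y, hy, h, rfl⟩

end Pool.Agent.KS6_22.ED.Un
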